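import Pool.Agent.Helper91.RG.BC

/-! The random character of a radial positive definite function (rows MS, BO1 - BO4, UNI of RG). -/

set_option autoImplicit false

open MeasureTheory Filter Topology

namespace Pool.Agent.Helper91.RG

open Pool.Agent.Helper1.RG

noncomputable local instance : MeasurableSpace Circle := borel Circle
local instance : BorelSpace Circle := ⟨rfl⟩

/-- row MS -/
theorem st_MS : ST_MS := fun u => measurable_to fun x => measurable_eval (u * x)

theorem ev_mulShift (χ : Om) (u x : ℂ) :
    Pool.Agent.Helper1.RG.ev x (χ.mulShift u) = Pool.Agent.Helper1.RG.ev (u * x) χ := rfl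

/-- the random character: existence, invariance, Fourier coefficients -/
theorem random_char {F : ℝ → ℝ} (hF : Pool.Agent.Helper16.RA.RPD F) :
    ∃ P : Measure Om, IsProbabilityMeasure P ∧ InvC P ∧
      (∀ z, ∫ χ, Pool.Agent.Helper1.RG.ev z χ ∂P = (F (Complex.normSq z) : ℂ)) ∧
      ∀ z, ∫ χ, (Pool.Agent.Helper1.RG.ev z χ).re ∂P = F (Complex.normSq z) ∧
        ∫ χ, (Pool.Agent.Helper1.RG.ev z χ).im ∂P = 0 := by
  obtain ⟨P, hP, h⟩ := bochner hF
  refine ⟨P, hP, fun u hu => ?_, h, fun z => ?_⟩
  · have h1 : IsProbabilityMeasure (P.map fun χ : Om => χ.mulShift u) :=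
      Measure.isProbabilityMeasure_map (st_MS u).aemeasurable
    refine st_UNI _ _ h1 hP fun x => ?_
    rw [integral_map (st_MS u).aemeasurable (measurable_ev x).aestronglyMeasurable]
    simp only [ev_mulShift]
    rw [h, h, map_mul, Complex.normSq_eq_norm_sq u, hu, one_pow, one_mul]
  · have hi : Integrable (Pool.Agent.Helper1.RG.ev z) P := by
      refine Integrable.of_bound (measurable_ev z).aestronglyMeasurable 1
        (Eventually.of_forall fun χ => ?_)
      exact (Circle.norm_coe _).le
    have h2 := integral_re hi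
    have h3 := integral_im hi
    rw [h z] at h2 h3
    exact ⟨h2, h3⟩

end Pool.Agent.Helper91.RG
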