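import Pool.Agent.Helper67.RG.EStmts

/-! Module KILL. -/

set_option autoImplicit false

namespace Pool.Agent.Helper67.RG

theorem kill_aux (n : ℕ) : ∀ (V : Type) [AddCommGroup V] [Module ℂ V] (U : Submodule ℂ V)
    (Γ : Set (V →ₗ[ℂ] V)) (_ : ∀ σ ∈ Γ, ∀ v ∈ U, σ v ∈ U) (ι : Type) (s : Finset ι) (z : ι → V)
    (χ : ι → (V →ₗ[ℂ] V) → ℂ) (_ : ∀ i ∈ s, ∀ σ ∈ Γ, σ (z i) = χ i σ • z i)
    (_ : ∀ i ∈ s, ∀ j ∈ s, i ≠ j → ∃ σ ∈ Γ, χ i σ ≠ χ j σ) (_ : ∑ i ∈ s, z i ∈ U)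
    (_ : s.card = n), ∀ i ∈ s, z i ∈ U := by
  classical
  induction n with
  | zero =>
    intro V _ _ U Γ hU ι s z χ hz hχ hsum hc i hi
    rw [Finset.card_eq_zero] at hc
    rw [hc] at hi
    simp at hi
  | succ n ih =>
    intro V _ _ U Γ hU ι s z χ hz hχ hsum hc i hi
    by_cases hj : ∃ j ∈ s, j ≠ i
    · obtain ⟨j, hj, hji⟩ := hj
      obtain ⟨σ, hσ, hne⟩ := hχ i hi j hj hji.symm
      have h1 : ∑ k ∈ s.erase j, (χ k σ - χ j σ) • z k ∈ U := by
        have h2 : ∑ k ∈ s.erase j, (χ k σ - χ j σ) • z k = σ (∑ k ∈ s, z k) - χ j σ • ∑ k ∈ s, z k := by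
          rw [map_sum, Finset.smul_sum, ← Finset.sum_sub_distrib, ← Finset.add_sum_erase s _ hj,
            hz j hj σ hσ, sub_self, zero_add]
          refine Finset.sum_congr rfl fun k hk => ?_
          rw [hz k (Finset.mem_of_mem_erase hk) σ hσ, sub_smul]
        rw [h2]
        exact U.sub_mem (hU σ hσ _ hsum) (U.smul_mem _ hsum)
      have h3 := ih V U Γ hU ι (s.erase j) (fun k => (χ k σ - χ j σ) • z k) χ
        (fun k hk τ hτ => by
          show τ ((χ k σ - χ j σ) • z k) = χ k τ • (χ k σ - χ j σ) • z k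
          rw [map_smul, hz k (Finset.mem_of_mem_erase hk) τ hτ, smul_comm])
        (fun a ha b hb hab => hχ a (Finset.mem_of_mem_erase ha) b (Finset.mem_of_mem_erase hb) hab)
        h1 (by rw [Finset.card_erase_of_mem hj, hc]; rfl) i (Finset.mem_erase.2 ⟨hji.symm, hi⟩)
      have h4 : (χ i σ - χ j σ)⁻¹ • (χ i σ - χ j σ) • z i = z i :=
        inv_smul_smul₀ (sub_ne_zero.2 hne) _
      rw [← h4]
      exact U.smul_mem _ h3
    · push Not at hj
      have hs : s = {i} := by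
        ext k
        rw [Finset.mem_singleton]
        exact ⟨fun hk => hj k hk, fun hk => hk ▸ hi⟩
      rw [hs, Finset.sum_singleton] at hsum
      exact hsum

theorem st_KILL : ST_KILL := by
  intro V _ _ U Γ hU ι s z χ hz hχ hsum
  exact kill_aux s.card V U Γ hU ι s z χ hz hχ hsum rfl

end Pool.Agent.Helper67.RG
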