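import Pool.Agent.Helper67.RG.EStmts

/-! Module GRAD. -/

set_option autoImplicit false

namespace Pool.Agent.Helper67.RG

open Polynomial

/-- the substitution `X ↦ 2 X` -/
noncomputable def gradS : Om[X] →ₐ[ℂ] Om[X] :=
  { (Polynomial.aeval (C (2 : Om) * X : Om[X])).restrictScalars ℂ with }

theorem gradS_apply (P : Om[X]) : gradS P = Polynomial.aeval (C (2 : Om) * X : Om[X]) P := rfl

theorem gradS_monomial (m : ℕ) (z : Om) : gradS (monomial m z) = (2 ^ m : ℂ) • monomial m z := by
  rw [gradS_apply, aeval_monomial, mul_pow, ← C_pow, smul_monomial, ← C_mul_X_pow_eq_monomial]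
  show C z * (C (2 ^ m) * X ^ m) = _
  rw [← mul_assoc, ← C_mul, Algebra.smul_def, map_pow, map_ofNat, mul_comm z]

theorem gradS_A0 {P : Om[X]} (h : P ∈ A0) : gradS P ∈ A0 := by
  have h1 : A0.map gradS ≤ A0 := by
    rw [A0, AlgHom.map_adjoin, Algebra.adjoin_le_iff]
    rintro _ ⟨x, hx, rfl⟩
    rcases hx with rfl | hx
    · have : (X ^ 2 : Om[X]) = monomial 2 1 := by rw [← C_mul_X_pow_eq_monomial]; simp
      rw [this, gradS_monomial, ← this]
      exact Subalgebra.smul_mem _ (Algebra.subset_adjoin (by simp)) _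
    · rw [Set.mem_singleton_iff] at hx
      subst hx
      rw [C_mul_X_pow_eq_monomial, gradS_monomial, ← C_mul_X_pow_eq_monomial]
      exact Subalgebra.smul_mem _ (Algebra.subset_adjoin (by simp)) _
  exact h1 ⟨P, h, rfl⟩

theorem gradS_int {P : Om[X]} (h : IsIntegral A0 P) : IsIntegral A0 (gradS P) := by
  let φ : A0 →+* A0 := (gradS.comp A0.val).toRingHom.codRestrict A0.toSubring
    (fun x => gradS_A0 x.2)
  refine h.map_of_comp_eq φ gradS.toRingHom ?_
  ext x
  rfl

theorem int_component_of_kill (hk : ST_KILL) {P : Om[X]} (h : IsIntegral A0 P) (m : ℕ) :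
    IsIntegral A0 (monomial m (P.coeff m)) := by
  classical
  by_cases hm : m ∈ P.support
  · let U : Submodule ℂ Om[X] :=
      { carrier := {Q | IsIntegral A0 Q}
        add_mem' := fun ha hb => ha.add hb
        zero_mem' := isIntegral_zero
        smul_mem' := by
          intro c Q hQ
          have h1 : c • Q = algebraMap A0 Om[X] (algebraMap ℂ A0 c) * Q := by
            rw [Algebra.smul_def]; rfl
          show IsIntegral A0 (c • Q)
          rw [h1]
          exact isIntegral_algebraMap.mul hQ }
    refine hk Om[X] U {gradS.toLinearMap} ?_ ℕ P.support (fun k => monomial k (P.coeff k))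
      (fun k _ => 2 ^ k) ?_ ?_ ?_ m hm
    · rintro σ rfl v hv
      exact gradS_int hv
    · rintro k _ σ rfl
      exact gradS_monomial k _
    · intro i _ j _ hij
      refine ⟨gradS.toLinearMap, rfl, ?_⟩
      intro h2
      have h3 : (2 : ℕ) ^ i = 2 ^ j := by exact_mod_cast h2
      exact hij (Nat.pow_right_injective le_rfl h3)
    · rw [← Polynomial.as_sum_support]
      exact h
  · rw [mem_support_iff, not_not] at hm
    rw [hm, map_zero]
    exact isIntegral_zero

namespace Tower

variable {ν : ℕ} {D : Pell ν} (T : Tower D)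

theorem comp_mem_of_kill (hk : ST_KILL) {P : Om[X]} (h : P ∈ T.B) (m : ℕ) :
    monomial m (P.coeff m) ∈ T.B := by
  refine ⟨int_component_of_kill hk h.1 m, fun k => ?_⟩
  rw [coeff_monomial]
  split_ifs with hmk
  · subst hmk
    exact h.2 m
  · exact Submodule.zero_mem _

end Tower

theorem st_GRAD (hk : ST_KILL) : ST_GRAD := by
  intro ν D T
  classical
  have hm : SetLike.GradedMonoid T.grB :=
    { one_mem := ⟨1, by simp⟩
      mul_mem := by
        rintro i j a b ⟨z, hz⟩ ⟨z', hz'⟩
        exact ⟨z * z', by rw [Subalgebra.coe_mul, hz, hz', monomial_mul_monomial]⟩ }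
  have hco : ∀ (x : DirectSum ℕ fun i => T.grB i) (m : ℕ),
      (((DirectSum.coeAddMonoidHom T.grB) x : T.B) : Om[X]).coeff m = ((x m : T.B) : Om[X]).coeff m := by
    intro x m
    induction x using DirectSum.induction_on with
    | zero => simp
    | of i y =>
      rw [DirectSum.coeAddMonoidHom_of]
      by_cases h : i = m
      · subst h
        rw [DirectSum.of_eq_same]
      · rw [DirectSum.of_eq_of_ne _ _ _ (Ne.symm h)]
        obtain ⟨z, hz⟩ := y.2
        rw [hz, coeff_monomial, if_neg h]
        simp
    | add x y hx hy =>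
      rw [map_add, Subalgebra.coe_add, coeff_add, hx, hy, DirectSum.add_apply, Submodule.coe_add,
        Subalgebra.coe_add, coeff_add]
  have hint : DirectSum.IsInternal T.grB := by
    constructor
    · intro x y hxy
      refine DFinsupp.ext fun m => ?_
      apply Subtype.ext
      apply Subtype.ext
      obtain ⟨z, hz⟩ := (x m).2
      obtain ⟨z', hz'⟩ := (y m).2
      have h1 := hco x m
      have h2 := hco y m
      rw [hxy] at h1
      rw [h1] at h2
      rw [hz, hz', coeff_monomial, if_pos rfl, coeff_monomial, if_pos rfl] at h2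
      rw [hz, hz', h2]
    · intro P
      refine ⟨∑ m ∈ (P : Om[X]).support, DirectSum.of (fun i => T.grB i) m
        ⟨⟨monomial m ((P : Om[X]).coeff m), T.comp_mem_of_kill hk P.2 m⟩, ⟨_, rfl⟩⟩, ?_⟩
      rw [map_sum]
      apply Subtype.ext
      rw [AddSubmonoidClass.coe_finset_sum]
      simp only [DirectSum.coeAddMonoidHom_of]
      exact (Polynomial.as_sum_support (P : Om[X])).symm
  exact ⟨{ hm, hint.chooseDecomposition with }⟩

end Pool.Agent.Helper67.RG
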