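import Pool.Agent.Helper67.RG.EStmts

/-! Module HILB. -/

set_option autoImplicit false

namespace Pool.Agent.Helper67.RG

section
variable {R : Type} [CommRing R] [IsDomain R] [Algebra ℂ R] (gr : ℕ → Submodule ℂ R)
  [GradedAlgebra gr]

theorem hilb_div {x a c : R} {n : ℕ} (hx : x ∈ gr 1) (ha : a ∈ gr (n + 1)) (h : a = x * c) :
    ∃ c' ∈ gr n, a = x * c' := by
  refine ⟨(DirectSum.decompose gr c n : R), SetLike.coe_mem _, ?_⟩
  have h1 := DirectSum.coe_decompose_mul_add_of_left_mem gr (i := 1) (j := n) (b := c) hx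
  rw [← h, add_comm 1 n, DirectSum.decompose_of_mem_same gr ha] at h1
  exact h1

theorem hilb_div0 {x a c : R} (hx : x ∈ gr 1) (ha : a ∈ gr 0) (h : a = x * c) : a = 0 := by
  have h1 := DirectSum.coe_decompose_mul_of_left_mem_of_not_le gr (i := 1) (n := 0) (b := c) hx
    (by omega)
  rw [← h, DirectSum.decompose_of_mem_same gr ha] at h1
  exact h1

theorem hilb_map (x : R) (hx : x ≠ 0) (n : ℕ) :
    Module.finrank ℂ ((gr n).map (LinearMap.mulLeft ℂ x)) = Module.finrank ℂ (gr n) :=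
  (Submodule.equivMapOfInjective (LinearMap.mulLeft ℂ x)
    (fun a b hab => mul_left_cancel₀ hx hab) (gr n)).finrank_eq.symm

variable {gr} in
theorem hilb_x1 {x0 x1 : R} (h0 : x0 ∈ gr 1) (_h1 : x1 ∈ gr 1)
    (hd : ∀ a b : R, x1 * a = x0 * b → x0 ∣ a) : x1 ≠ 0 := by
  rintro rfl
  obtain ⟨c, hc⟩ := hd 1 0 (by ring)
  have := hilb_div0 gr h0 (SetLike.GradedOne.one_mem) hc
  exact one_ne_zero this

variable {gr} in
theorem hilb_inf {x0 x1 : R} (h0 : x0 ∈ gr 1) (_h1 : x1 ∈ gr 1)
    (hd : ∀ a b : R, x1 * a = x0 * b → x0 ∣ a) (n : ℕ) :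
    (gr (n + 1)).map (LinearMap.mulLeft ℂ x0) ⊓ (gr (n + 1)).map (LinearMap.mulLeft ℂ x1) =
      (gr n).map (LinearMap.mulLeft ℂ (x0 * x1)) := by
  apply le_antisymm
  · rintro z ⟨⟨b, hb, hbz⟩, ⟨a, ha, haz⟩⟩
    have h2 : x1 * a = x0 * b := haz.trans hbz.symm
    obtain ⟨c, hc⟩ := hd a b h2
    obtain ⟨c', hc', hac⟩ := hilb_div gr h0 ha hc
    refine ⟨c', hc', ?_⟩
    show x0 * x1 * c' = z
    rw [← haz]
    show x0 * x1 * c' = x1 * a
    rw [hac]; ring
  · rintro z ⟨c, hc, rfl⟩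
    refine ⟨⟨x1 * c, ?_, ?_⟩, ⟨x0 * c, ?_, ?_⟩⟩
    · have := SetLike.GradedMul.mul_mem _h1 hc
      rwa [add_comm] at this
    · show x0 * (x1 * c) = x0 * x1 * c
      ring
    · have := SetLike.GradedMul.mul_mem h0 hc
      rwa [add_comm] at this
    · show x1 * (x0 * c) = x0 * x1 * c
      ring

end

theorem st_HILB : ST_HILB := by
  intro R _ _ _ gr _ hfin x0 x1 h0 h1 hx0 hd M hM
  have hx1 : x1 ≠ 0 := hilb_x1 h0 h1 hd
  set H : ℕ → ℕ := fun n => Module.finrank ℂ (gr n) with hH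
  have hle : ∀ n, (gr n).map (LinearMap.mulLeft ℂ x0) ≤ gr (n + 1) := by
    rintro n z ⟨a, ha, rfl⟩
    have := SetLike.GradedMul.mul_mem h0 ha
    rwa [add_comm] at this
  have hle1 : ∀ n, (gr n).map (LinearMap.mulLeft ℂ x1) ≤ gr (n + 1) := by
    rintro n z ⟨a, ha, rfl⟩
    have := SetLike.GradedMul.mul_mem h1 ha
    rwa [add_comm] at this
  have hsum : ∀ n, Module.finrank ℂ ((gr (n + 1)).map (LinearMap.mulLeft ℂ x0) ⊔
      (gr (n + 1)).map (LinearMap.mulLeft ℂ x1) : Submodule ℂ R) + H n = H (n + 1) + H (n + 1) := by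
    intro n
    have h2 := Submodule.finrank_sup_add_finrank_inf_eq ((gr (n + 1)).map (LinearMap.mulLeft ℂ x0))
      ((gr (n + 1)).map (LinearMap.mulLeft ℂ x1))
    rw [hilb_inf h0 h1 hd, hilb_map gr _ (mul_ne_zero hx0 hx1), hilb_map gr _ hx0,
      hilb_map gr _ hx1] at h2
    exact h2
  have hA : ∀ n, H (n + 1) + H (n + 1) ≤ H (n + 2) + H n := by
    intro n
    rw [← hsum n]
    exact Nat.add_le_add_right (Submodule.finrank_mono (sup_le (hle _) (hle1 _))) _
  have hB : ∀ n, M ≤ n + 1 → H (n + 1) + H (n + 1) = H (n + 2) + H n := by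
    intro n hn
    rw [← hsum n]
    congr 1
    have h3 : gr (n + 2) = (gr (n + 1)).map (LinearMap.mulLeft ℂ x0) ⊔
        (gr (n + 1)).map (LinearMap.mulLeft ℂ x1) := by
      apply le_antisymm _ (sup_le (hle _) (hle1 _))
      intro z hz
      obtain ⟨a, ha, b, hb, rfl⟩ := hM (n + 1) hn z hz
      exact Submodule.add_mem_sup ⟨a, ha, rfl⟩ ⟨b, hb, rfl⟩
    show _ = Module.finrank ℂ (gr (n + 2))
    rw [h3]
  have hmono : ∀ n, H n ≤ H (n + 1) := by
    intro n
    show Module.finrank ℂ (gr n) ≤ Module.finrank ℂ (gr (n + 1))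
    rw [← hilb_map gr x0 hx0 n]
    exact Submodule.finrank_mono (hle n)
  obtain ⟨d, hdd⟩ : ∃ d, H (M + 1) = H M + d := ⟨H (M + 1) - H M, by have := hmono M; omega⟩
  have hstep : ∀ k, H (M + k + 1) = H (M + k) + d := by
    intro k
    induction k with
    | zero => exact hdd
    | succ k ih =>
      have h4 := hB (M + k) (by omega)
      have h5 : M + (k + 1) + 1 = M + k + 2 := by ring
      have h6 : M + (k + 1) = M + k + 1 := by ring
      rw [h5, h6]
      omega
  have hlow : ∀ k n, n + k = M → H (n + 1) ≤ H n + d := by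
    intro k
    induction k with
    | zero =>
      intro n hn
      have : n = M := by omega
      subst this
      omega
    | succ k ih =>
      intro n hn
      have h7 := ih (n + 1) (by omega)
      have h8 := hA n
      have h9 : n + 1 + 1 = n + 2 := rfl
      rw [h9] at h7
      omega
  refine ⟨d, (H M : ℤ) - M * d, ?_, ?_⟩
  · intro n hn
    obtain ⟨k, rfl⟩ := Nat.exists_eq_add_of_le hn
    have h10 : ∀ k, (H (M + k) : ℤ) = H M + k * d := by
      intro k
      induction k with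
      | zero => simp
      | succ k ih =>
        have h11 := hstep k
        have h12 : M + (k + 1) = M + k + 1 := by ring
        rw [h12, h11]
        push_cast
        rw [ih]
        ring
    have := h10 k
    show (H (M + k) : ℤ) = _
    rw [this]
    push_cast
    ring
  · intro n
    show H (n + 1) ≤ H n + d
    by_cases hn : M ≤ n
    · obtain ⟨k, rfl⟩ := Nat.exists_eq_add_of_le hn
      rw [hstep k]
    · exact hlow (M - n) n (by omega)

end Pool.Agent.Helper67.RG
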