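import Mathlib

/-! Bochner's theorem for discrete abelian groups, part A: the compact group of characters and its Haar
measure. -/

set_option autoImplicit false

open MeasureTheory Filter Topology TopologicalSpace

namespace Pool.Agent.Helper91.RG

/-- the characters, as a subgroup of the product -/
def chars (G : Type) [AddCommGroup G] : Subgroup (G → Circle) where
  carrier := {f | ∀ x y, f (x + y) = f x * f y}
  mul_mem' := by
    intro f g hf hg x y
    show f (x + y) * g (x + y) = f x * g x * (f y * g y)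
    rw [hf x y, hg x y]
    exact mul_mul_mul_comm _ _ _ _
  one_mem' := by
    intro x y
    show (1 : Circle) = 1 * 1
    rw [one_mul]
  inv_mem' := by
    intro f hf x y
    show (f (x + y))⁻¹ = (f x)⁻¹ * (f y)⁻¹
    rw [hf x y, mul_inv]

/-- the compact group of characters -/
def Ch (G : Type) [AddCommGroup G] : Type := ↥(chars G)

variable {G : Type} [AddCommGroup G]

noncomputable instance : CommGroup (Ch G) := inferInstanceAs (CommGroup ↥(chars G))
instance : TopologicalSpace (Ch G) := inferInstanceAs (TopologicalSpace ↥(chars G))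
instance : T2Space (Ch G) := inferInstanceAs (T2Space ↥(chars G))
instance : IsTopologicalGroup (Ch G) := inferInstanceAs (IsTopologicalGroup ↥(chars G))
instance : Nonempty (Ch G) := ⟨1⟩
instance : MeasurableSpace (Ch G) := borel _
instance : BorelSpace (Ch G) := ⟨rfl⟩

theorem chars_closed : IsClosed ((chars G : Subgroup (G → Circle)) : Set (G → Circle)) := by
  have h : ((chars G : Subgroup (G → Circle)) : Set (G → Circle)) =
      ⋂ x : G, ⋂ y : G, {f : G → Circle | f (x + y) = f x * f y} := by
    ext f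
    simp only [Set.mem_iInter, Set.mem_ofPred_eq]
    rfl
  rw [h]
  refine isClosed_iInter fun x => isClosed_iInter fun y => ?_
  exact isClosed_eq (by fun_prop) (by fun_prop)

instance : CompactSpace (Ch G) :=
  isCompact_iff_compactSpace.1 (chars_closed (G := G)).isCompact

/-- evaluation -/
def app (χ : Ch G) (x : G) : Circle := χ.1 x

theorem app_add (χ : Ch G) (x y : G) : app χ (x + y) = app χ x * app χ y := χ.2 x y

theorem app_zero (χ : Ch G) : app χ 0 = 1 := by
  have h := app_add χ 0 0
  rw [add_zero] at h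
  exact (mul_eq_left.1 h.symm)

theorem app_neg (χ : Ch G) (x : G) : app χ (-x) = (app χ x)⁻¹ := by
  rw [eq_inv_iff_mul_eq_one, ← app_add, neg_add_cancel, app_zero]

theorem app_sub (χ : Ch G) (x y : G) : app χ (x - y) = app χ x * (app χ y)⁻¹ := by
  rw [sub_eq_add_neg, app_add, app_neg]

theorem app_mul (χ ψ : Ch G) (x : G) : app (χ * ψ) x = app χ x * app ψ x := rfl

theorem continuous_app (x : G) : Continuous fun χ : Ch G => app χ x :=
  (continuous_apply x).comp continuous_subtype_val

/-- complex value -/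
noncomputable def ev (x : G) (χ : Ch G) : ℂ := (app χ x : ℂ)

theorem continuous_ev (x : G) : Continuous (ev x : Ch G → ℂ) :=
  continuous_subtype_val.comp (continuous_app x)

theorem ev_zero (χ : Ch G) : ev 0 χ = 1 := by
  rw [ev, app_zero]
  rfl

theorem ev_add (x y : G) (χ : Ch G) : ev (x + y) χ = ev x χ * ev y χ := by
  rw [ev, app_add]
  rfl

theorem ev_mul (x : G) (χ ψ : Ch G) : ev x (χ * ψ) = ev x χ * ev x ψ := by
  rw [ev, app_mul]
  rfl

theorem ev_neg (x : G) (χ : Ch G) : ev (-x) χ = (starRingEnd ℂ) (ev x χ) := by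
  rw [ev, app_neg, ev, Circle.coe_inv_eq_conj]

theorem ev_sub (x y : G) (χ : Ch G) : ev (x - y) χ = ev x χ * (starRingEnd ℂ) (ev y χ) := by
  rw [sub_eq_add_neg, ev_add, ev_neg]

theorem norm_ev (x : G) (χ : Ch G) : ‖ev x χ‖ = 1 := Circle.norm_coe _

/-- characters separate points -/
theorem exists_sep {x : G} (hx : x ≠ 0) : ∃ χ : Ch G, ev x χ ≠ 1 := by
  obtain ⟨c, hc⟩ := CharacterModule.exists_character_apply_ne_zero_of_ne_zero hx
  -- the embedding of `ℚ / ℤ` into the circle
  let f : ℚ →+ Additive Circle :=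
    { toFun := fun q => Additive.ofMul (Circle.exp (2 * Real.pi * (q : ℝ)))
      map_zero' := by
        rw [Rat.cast_zero, mul_zero, Circle.exp_zero]
        rfl
      map_add' := by
        intro a b
        rw [Rat.cast_add, mul_add, Circle.exp_add]
        rfl }
  have hf : AddSubgroup.zmultiples (1 : ℚ) ≤ f.ker := by
    intro q hq
    obtain ⟨n, rfl⟩ := AddSubgroup.mem_zmultiples_iff.1 hq
    rw [AddMonoidHom.mem_ker]
    show Additive.ofMul (Circle.exp (2 * Real.pi * ((n • (1 : ℚ) : ℚ) : ℝ))) = 0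
    have : ((n • (1 : ℚ) : ℚ) : ℝ) = n := by
      rw [zsmul_one]
      push_cast
      rfl
    rw [this, Circle.exp_two_pi_mul_int]
    rfl
  let ψ : AddCircle (1 : ℚ) →+ Additive Circle := QuotientAddGroup.lift _ f hf
  have hψ : ∀ a : AddCircle (1 : ℚ), ψ a = 0 → a = 0 := by
    intro a
    refine QuotientAddGroup.induction_on a fun q => ?_
    intro h
    have h1 : Circle.exp (2 * Real.pi * (q : ℝ)) = 1 := h
    obtain ⟨n, hn⟩ := Circle.exp_eq_one.1 h1
    have h2 : (q : ℝ) = n := by
      have h3 : (2 * Real.pi : ℝ) ≠ 0 := by positivity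
      have h4 : 2 * Real.pi * (q : ℝ) = 2 * Real.pi * n := by rw [hn]; ring
      exact mul_left_cancel₀ h3 h4
    have h3 : q = n := by exact_mod_cast h2
    rw [QuotientAddGroup.eq_zero_iff, AddSubgroup.mem_zmultiples_iff]
    exact ⟨n, by rw [zsmul_one, h3]⟩
  refine ⟨⟨fun y => (Additive.toMul (ψ (c y)) : Circle), fun y z => ?_⟩, ?_⟩
  · show Additive.toMul (ψ (c (y + z))) = Additive.toMul (ψ (c y)) * Additive.toMul (ψ (c z))
    rw [map_add, map_add, toMul_add]
  · intro h
    have h1 : (Additive.toMul (ψ (c x)) : Circle) = 1 := by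
      apply Circle.coe_injective
      exact h
    exact hc (hψ _ h1)

/-- Haar probability measure -/
noncomputable def haar (G : Type) [AddCommGroup G] : Measure (Ch G) :=
  Measure.haarMeasure (⊤ : PositiveCompacts (Ch G))

instance : IsProbabilityMeasure (haar G) := by
  constructor
  have h := Measure.haarMeasure_self (K₀ := (⊤ : PositiveCompacts (Ch G)))
  exact h

instance : (haar G).IsMulLeftInvariant := by
  unfold haar
  infer_instance

theorem int_ev_ne {x : G} (hx : x ≠ 0) : ∫ χ, ev x χ ∂(haar G) = 0 := by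
  obtain ⟨χ₀, h0⟩ := exists_sep hx
  have h1 := integral_mul_left_eq_self (μ := haar G) (fun χ => ev x χ) χ₀
  have h2 : (fun χ => ev x (χ₀ * χ)) = fun χ => ev x χ₀ * ev x χ := by
    funext χ
    rw [ev_mul]
  rw [h2, integral_const_mul] at h1
  have h3 : (ev x χ₀ - 1) * ∫ χ, ev x χ ∂(haar G) = 0 := by
    rw [sub_mul, h1, one_mul, sub_self]
  rcases mul_eq_zero.1 h3 with h4 | h4
  · exact absurd (sub_eq_zero.1 h4) h0
  · exact h4

theorem int_ev_zero : ∫ χ, ev (0 : G) χ ∂(haar G) = 1 := by
  have h : (fun χ => ev (0 : G) χ) = fun _ => (1 : ℂ) := by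
    funext χ
    rw [ev_zero]
  rw [h, integral_const]
  simp

theorem integrable_of_cont {f : Ch G → ℝ} (hf : Continuous f) (μ : Measure (Ch G))
    [IsFiniteMeasure μ] : Integrable f μ :=
  (BoundedContinuousFunction.mkOfCompact ⟨f, hf⟩).integrable μ

theorem integrable_ev (x : G) (μ : Measure (Ch G)) [IsFiniteMeasure μ] :
    Integrable (fun χ => ev x χ) μ := by
  refine (BoundedContinuousFunction.mkOfCompact ⟨ev x, continuous_ev x⟩).integrable μ

theorem int_re (x : G) (μ : Measure (Ch G)) [IsFiniteMeasure μ] :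
    ∫ χ, (ev x χ).re ∂μ = (∫ χ, ev x χ ∂μ).re := by
  exact integral_re (integrable_ev x μ)

theorem int_im (x : G) (μ : Measure (Ch G)) [IsFiniteMeasure μ] :
    ∫ χ, (ev x χ).im ∂μ = (∫ χ, ev x χ ∂μ).im := by
  exact integral_im (integrable_ev x μ)

theorem int_re_haar (x : G) [Decidable (x = 0)] :
    ∫ χ, (ev x χ).re ∂(haar G) = if x = 0 then 1 else 0 := by
  rw [int_re]
  split_ifs with h
  · rw [h, int_ev_zero, Complex.one_re]
  · rw [int_ev_ne h, Complex.zero_re]

theorem int_im_haar (x : G) : ∫ χ, (ev x χ).im ∂(haar G) = 0 := by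
  rw [int_im]
  by_cases h : x = 0
  · rw [h, int_ev_zero, Complex.one_im]
  · rw [int_ev_ne h, Complex.zero_im]

end Pool.Agent.Helper91.RG
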