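import Pool.Agent.Helper91.RG.BA

/-! Bochner's theorem for discrete abelian groups, part B: the Følner sets, the densities, the limit. -/

set_option autoImplicit false

open MeasureTheory Filter Topology TopologicalSpace

namespace Pool.Agent.Helper91.RG

variable {G : Type} [AddCommGroup G]

section Folner
open Classical

/-- sums of fewer than `n` copies of every element of `F` -/
noncomputable def box (F : Finset G) (n : ℕ) : Finset G :=
  (Fintype.piFinset fun _ : F => Finset.range n).image fun k => ∑ x : F, k x • (x : G)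

theorem mem_box {F : Finset G} {n : ℕ} {y : G} :
    y ∈ box F n ↔ ∃ k : F → ℕ, (∀ x, k x < n) ∧ ∑ x : F, k x • (x : G) = y := by
  rw [box, Finset.mem_image]
  constructor
  · rintro ⟨k, hk, rfl⟩
    exact ⟨k, fun x => Finset.mem_range.1 (Fintype.mem_piFinset.1 hk x), rfl⟩
  · rintro ⟨k, hk, rfl⟩
    exact ⟨k, Fintype.mem_piFinset.2 fun x => Finset.mem_range.2 (hk x), rfl⟩

theorem card_box (F : Finset G) (n : ℕ) : (box F n).card ≤ n ^ F.card := by
  refine Finset.card_image_le.trans ?_
  rw [Fintype.card_piFinset]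
  simp

theorem box_mono (F : Finset G) (n : ℕ) : box F n ⊆ box F (n + 1) := by
  intro y hy
  obtain ⟨k, hk, rfl⟩ := mem_box.1 hy
  exact mem_box.2 ⟨k, fun x => (hk x).trans (Nat.lt_succ_self n), rfl⟩

theorem box_add (F : Finset G) (n : ℕ) {x y : G} (hx : x ∈ F) (hy : y ∈ box F n) :
    y + x ∈ box F (n + 1) := by
  obtain ⟨k, hk, rfl⟩ := mem_box.1 hy
  refine mem_box.2 ⟨fun z => k z + if z = ⟨x, hx⟩ then 1 else 0, fun z => ?_, ?_⟩
  · have := hk z
    show k z + (if z = ⟨x, hx⟩ then 1 else 0) < n + 1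
    split_ifs <;> omega
  · simp only [add_smul, Finset.sum_add_distrib, ite_smul, one_smul, zero_smul]
    congr 1
    rw [Finset.sum_ite_eq' Finset.univ (⟨x, hx⟩ : F) fun z => (z : G), if_pos (Finset.mem_univ _)]

theorem box_one (F : Finset G) : (box F 1).Nonempty := by
  refine ⟨0, mem_box.2 ⟨fun _ => 0, fun _ => one_pos, ?_⟩⟩
  simp

/-- the number of pairs with difference `x` -/
noncomputable def cnt (B : Finset G) (x : G) : ℕ := ((B ×ˢ B).filter fun p => p.1 - p.2 = x).card

theorem cnt_le (B : Finset G) (x : G) : cnt B x ≤ B.card := by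
  rw [cnt]
  refine Finset.card_le_card_of_injOn (fun p => p.2) (fun p hp => ?_) fun p hp q hq h => ?_
  · exact (Finset.mem_product.1 (Finset.mem_filter.1 hp).1).2
  · have h1 := (Finset.mem_filter.1 hp).2
    have h2 := (Finset.mem_filter.1 hq).2
    have h3 : p.2 = q.2 := h
    refine Prod.ext ?_ h3
    rw [← sub_left_inj (a := p.2)]
    rw [h1, h3, h2]

theorem cnt_ge (B C : Finset G) (x : G) (h1 : B ⊆ C) (h2 : ∀ y ∈ B, y + x ∈ C) :
    2 * B.card ≤ C.card + cnt B x := by
  -- the translate of `B`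
  set B' : Finset G := B.map (addRightEmbedding x) with hB'
  have h3 : B' ⊆ C := by
    intro y hy
    rw [hB', Finset.mem_map] at hy
    obtain ⟨z, hz, rfl⟩ := hy
    exact h2 z hz
  have h4 : B'.card = B.card := Finset.card_map _
  have h5 := Finset.card_union_add_card_inter B B'
  have h6 : (B ∪ B').card ≤ C.card := Finset.card_le_card (Finset.union_subset h1 h3)
  have h7 : (B ∩ B').card ≤ cnt B x := by
    rw [cnt]
    refine Finset.card_le_card_of_injOn (fun y => (y, y - x)) (fun y hy => ?_) fun y _ z _ h => ?_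
    · have hy' := Finset.mem_inter.1 hy
      obtain ⟨z, hz, hzy⟩ := Finset.mem_map.1 hy'.2
      have hzy' : z + x = y := hzy
      have h8 : y - x = z := by rw [← hzy', add_sub_cancel_right]
      refine Finset.mem_coe.2 (Finset.mem_filter.2 ⟨Finset.mem_product.2 ⟨hy'.1, ?_⟩, ?_⟩)
      · show y - x ∈ B
        rw [h8]
        exact hz
      · show y - (y - x) = x
        rw [sub_sub_cancel]
    · exact (Prod.ext_iff.1 h).1
  omega

/-- Følner sets -/
theorem exists_folner (F : Finset G) {ε : ℝ} (hε : 0 < ε) :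
    ∃ B : Finset G, B.Nonempty ∧ ∀ x ∈ F, (1 - ε) * B.card ≤ cnt B x := by
  -- some `n` with `card (box (n + 1)) ≤ (1 + ε) card (box n)`
  have h1 : ∃ n, 1 ≤ n ∧ ((box F (n + 1)).card : ℝ) ≤ (1 + ε) * (box F n).card := by
    by_contra hcon
    push Not at hcon
    have h2 : ∀ n, (1 + ε) ^ n ≤ ((box F (n + 1)).card : ℝ) := by
      intro n
      induction n with
      | zero =>
        rw [pow_zero]
        have := (box_one F).card_pos
        exact_mod_cast this
      | succ n ih =>
        rw [pow_succ, mul_comm]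
        have h3 := hcon (n + 1) (by omega)
        have h4 : (1 + ε) * (1 + ε) ^ n ≤ (1 + ε) * ((box F (n + 1)).card : ℝ) :=
          mul_le_mul_of_nonneg_left ih (by linarith)
        exact h4.trans h3.le
    have h3 : ∀ n : ℕ, (1 + ε) ^ n ≤ ((n : ℝ) + 1) ^ F.card := by
      intro n
      refine (h2 n).trans ?_
      have h4 := card_box F (n + 1)
      exact_mod_cast h4
    -- polynomial against exponential
    have h4 : Tendsto (fun n : ℕ => ((n : ℝ) + 1) ^ F.card / (1 + ε) ^ n) atTop (𝓝 0) := by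
      have h5 := tendsto_pow_const_div_const_pow_of_one_lt F.card (show (1 : ℝ) < 1 + ε by linarith)
      have h6 := (h5.comp (tendsto_add_atTop_nat 1)).const_mul (1 + ε)
      rw [mul_zero] at h6
      refine h6.congr fun n => ?_
      show (1 + ε) * ((((n + 1 : ℕ) : ℝ)) ^ F.card / (1 + ε) ^ (n + 1)) = _
      have h7 : (1 + ε : ℝ) ≠ 0 := by positivity
      push_cast
      field_simp
      ring
    have h5 : ∀ᶠ n : ℕ in atTop, ((n : ℝ) + 1) ^ F.card / (1 + ε) ^ n < 1 :=
      h4.eventually (gt_mem_nhds one_pos)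
    obtain ⟨n, hn⟩ := h5.exists
    rw [div_lt_one (by positivity)] at hn
    exact absurd (h3 n) (not_le.2 hn)
  obtain ⟨n, hn, h2⟩ := h1
  refine ⟨box F n, ?_, fun x hx => ?_⟩
  · have : ∀ m, 1 ≤ m → (box F m).Nonempty := by
      intro m hm
      induction m, hm using Nat.le_induction with
      | base => exact box_one F
      | succ m _ ih => exact ih.mono (box_mono F m)
    exact this n hn
  · have h3 := cnt_ge (box F n) (box F (n + 1)) x (box_mono F n) fun y hy => box_add F n hx hy
    have h4 : 2 * ((box F n).card : ℝ) ≤ (box F (n + 1)).card + cnt (box F n) x := by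
      exact_mod_cast h3
    linarith

end Folner

/-- hypotheses on the function -/
structure PD (φ : G → ℝ) : Prop where
  one : φ 0 = 1
  bd : ∀ x, |φ x| ≤ 1
  symm : ∀ x, φ (-x) = φ x
  pos : ∀ (s : Finset G) (w : G → ℝ), 0 ≤ ∑ a ∈ s, ∑ b ∈ s, w a * w b * φ (a - b)

/-- the density -/
noncomputable def den (φ : G → ℝ) (B : Finset G) (χ : Ch G) : ℝ :=
  (B.card : ℝ)⁻¹ * ∑ a ∈ B, ∑ b ∈ B, φ (a - b) * (ev (a - b) χ).re

theorem continuous_den (φ : G → ℝ) (B : Finset G) : Continuous (den φ B) := by
  refine continuous_const.mul (continuous_finsetSum _ fun a _ => continuous_finsetSum _ fun b _ => ?_)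
  exact continuous_const.mul (Complex.continuous_re.comp (continuous_ev _))

theorem den_nonneg {φ : G → ℝ} (h : PD φ) (B : Finset G) (χ : Ch G) : 0 ≤ den φ B χ := by
  refine mul_nonneg (by positivity) ?_
  have h1 := h.pos B fun a => (ev a χ).re
  have h2 := h.pos B fun a => (ev a χ).im
  refine (add_nonneg h1 h2).trans_eq ?_
  rw [← Finset.sum_add_distrib]
  refine Finset.sum_congr rfl fun a _ => ?_
  rw [← Finset.sum_add_distrib]
  refine Finset.sum_congr rfl fun b _ => ?_
  rw [ev_sub, Complex.mul_re, Complex.conj_re, Complex.conj_im]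
  ring

theorem ev_re_mul_re (x y : G) (χ : Ch G) :
    (ev y χ).re * (ev x χ).re = ((ev (y + x) χ).re + (ev (y - x) χ).re) / 2 := by
  rw [ev_add, ev_sub, Complex.mul_re, Complex.mul_re, Complex.conj_re, Complex.conj_im]
  ring

theorem ev_re_mul_im (x y : G) (χ : Ch G) :
    (ev y χ).re * (ev x χ).im = ((ev (y + x) χ).im - (ev (y - x) χ).im) / 2 := by
  rw [ev_add, ev_sub, Complex.mul_im, Complex.mul_im, Complex.conj_re, Complex.conj_im]
  ring

section Int
variable (φ : G → ℝ) (B : Finset G)

theorem integrable_re (y : G) : Integrable (fun χ => (ev y χ).re) (haar G) :=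
  integrable_of_cont (Complex.continuous_re.comp (continuous_ev _)) _

theorem integrable_im (y : G) : Integrable (fun χ => (ev y χ).im) (haar G) :=
  integrable_of_cont (Complex.continuous_im.comp (continuous_ev _)) _

/-- a general computation -/
theorem int_den_mul (g : Ch G → ℝ) (hg : Continuous g) :
    ∫ χ, den φ B χ * g χ ∂(haar G) =
      (B.card : ℝ)⁻¹ * ∑ a ∈ B, ∑ b ∈ B, φ (a - b) * ∫ χ, (ev (a - b) χ).re * g χ ∂(haar G) := by
  have hc : ∀ y : G, Continuous fun χ : Ch G => (ev y χ).re * g χ := fun y =>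
    (Complex.continuous_re.comp (continuous_ev y)).mul hg
  have h1 : (fun χ => den φ B χ * g χ) = fun χ =>
      (B.card : ℝ)⁻¹ * ∑ a ∈ B, ∑ b ∈ B, φ (a - b) * ((ev (a - b) χ).re * g χ) := by
    funext χ
    rw [den, mul_assoc, Finset.sum_mul]
    congr 1
    refine Finset.sum_congr rfl fun a _ => ?_
    rw [Finset.sum_mul]
    exact Finset.sum_congr rfl fun b _ => mul_assoc _ _ _
  rw [h1, integral_const_mul]
  congr 1
  rw [integral_finsetSum]
  · refine Finset.sum_congr rfl fun a _ => ?_
    rw [integral_finsetSum]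
    · refine Finset.sum_congr rfl fun b _ => ?_
      rw [integral_const_mul]
    · intro b _
      exact integrable_of_cont (continuous_const.mul (hc _)) _
  · intro a _
    exact integrable_of_cont (continuous_finsetSum _ fun b _ => continuous_const.mul (hc _)) _

open Classical in
theorem int_re_mul_re (x y : G) : ∫ χ, (ev y χ).re * (ev x χ).re ∂(haar G) =
    ((if y + x = 0 then 1 else 0) + if y - x = 0 then 1 else 0) / 2 := by
  simp only [ev_re_mul_re]
  rw [integral_div, integral_add (integrable_re _) (integrable_re _), int_re_haar, int_re_haar]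

theorem int_re_mul_im (x y : G) : ∫ χ, (ev y χ).re * (ev x χ).im ∂(haar G) = 0 := by
  simp only [ev_re_mul_im]
  rw [integral_div, integral_sub (integrable_im _) (integrable_im _), int_im_haar, int_im_haar]
  norm_num

open Classical in
theorem sum_cnt (f : G → ℝ) (x : G) :
    ∑ a ∈ B, ∑ b ∈ B, f (a - b) * (if a - b = x then (1 : ℝ) else 0) = f x * cnt B x := by
  rw [← Finset.sum_product' B B fun a b => f (a - b) * (if a - b = x then (1 : ℝ) else 0), cnt,
    Finset.card_filter, Nat.cast_sum, Finset.mul_sum]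
  refine Finset.sum_congr rfl fun p _ => ?_
  show f (p.1 - p.2) * _ = _
  split_ifs with h
  · rw [h, Nat.cast_one]
  · rw [mul_zero, Nat.cast_zero, mul_zero]

theorem cnt_neg (x : G) : cnt B (-x) = cnt B x := by
  classical
  rw [cnt, cnt]
  refine Finset.card_bij' (fun p _ => (p.2, p.1)) (fun p _ => (p.2, p.1)) ?_ ?_ (fun _ _ => rfl)
    fun _ _ => rfl
  · intro p hp
    rw [Finset.mem_filter, Finset.mem_product] at hp
    rw [Finset.mem_filter, Finset.mem_product]
    refine ⟨⟨hp.1.2, hp.1.1⟩, ?_⟩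
    show p.2 - p.1 = x
    rw [← neg_sub, hp.2, neg_neg]
  · intro p hp
    rw [Finset.mem_filter, Finset.mem_product] at hp
    rw [Finset.mem_filter, Finset.mem_product]
    refine ⟨⟨hp.1.2, hp.1.1⟩, ?_⟩
    show p.2 - p.1 = -x
    rw [← neg_sub, hp.2]

variable {φ} {B}

theorem int_den_re (h : PD φ) (x : G) :
    ∫ χ, den φ B χ * (ev x χ).re ∂(haar G) = φ x * ((cnt B x : ℝ) / B.card) := by
  classical
  rw [int_den_mul φ B (fun χ => (ev x χ).re) (Complex.continuous_re.comp (continuous_ev x))]
  simp only [int_re_mul_re]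
  have h1 : ∑ a ∈ B, ∑ b ∈ B, φ (a - b) *
      (((if a - b + x = 0 then (1 : ℝ) else 0) + if a - b - x = 0 then (1 : ℝ) else 0) / 2) =
      (∑ a ∈ B, ∑ b ∈ B, φ (a - b) * (if a - b = -x then (1 : ℝ) else 0) +
        ∑ a ∈ B, ∑ b ∈ B, φ (a - b) * (if a - b = x then (1 : ℝ) else 0)) / 2 := by
    rw [← Finset.sum_add_distrib, Finset.sum_div]
    refine Finset.sum_congr rfl fun a _ => ?_
    rw [← Finset.sum_add_distrib, Finset.sum_div]
    refine Finset.sum_congr rfl fun b _ => ?_
    have e1 : (a - b + x = 0) = (a - b = -x) := propext eq_neg_iff_add_eq_zero.symm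
    have e2 : (a - b - x = 0) = (a - b = x) := propext sub_eq_zero
    simp only [e1, e2]
    ring
  rw [h1, sum_cnt, sum_cnt, h.symm, cnt_neg]
  ring

theorem int_den_im (x : G) : ∫ χ, den φ B χ * (ev x χ).im ∂(haar G) = 0 := by
  rw [int_den_mul φ B (fun χ => (ev x χ).im) (Complex.continuous_im.comp (continuous_ev x))]
  simp only [int_re_mul_im, mul_zero, Finset.sum_const_zero]

theorem int_den (h : PD φ) (hB : B.Nonempty) : ∫ χ, den φ B χ ∂(haar G) = 1 := by
  have h1 := int_den_re (B := B) h 0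
  have h2 : (fun χ : Ch G => den φ B χ * (ev 0 χ).re) = den φ B := by
    funext χ
    rw [ev_zero, Complex.one_re, mul_one]
  rw [h2, h.one, one_mul] at h1
  rw [h1]
  have h3 : cnt B (0 : G) = B.card := by
    classical
    rw [cnt]
    refine Finset.card_bij' (fun p _ => p.1) (fun a _ => (a, a)) ?_ ?_ ?_ ?_
    · intro p hp
      exact (Finset.mem_product.1 (Finset.mem_filter.1 hp).1).1
    · intro a ha
      exact Finset.mem_filter.2 ⟨Finset.mem_product.2 ⟨ha, ha⟩, sub_self a⟩
    · intro p hp
      have h4 : p.1 - p.2 = 0 := (Finset.mem_filter.1 hp).2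
      exact Prod.ext rfl (sub_eq_zero.1 h4)
    · intro a _
      rfl
  rw [h3, div_self]
  exact_mod_cast hB.card_pos.ne'

end Int

/-- the approximating probability measure -/
noncomputable def approx (φ : G → ℝ) (B : Finset G) : Measure (Ch G) :=
  (haar G).withDensity fun χ => ((den φ B χ).toNNReal : ENNReal)

theorem approx_prob {φ : G → ℝ} (h : PD φ) {B : Finset G} (hB : B.Nonempty) :
    IsProbabilityMeasure (approx φ B) := by
  constructor
  rw [approx, withDensity_apply _ MeasurableSet.univ, Measure.restrict_univ]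
  have h1 : ∫⁻ χ, ENNReal.ofReal (den φ B χ) ∂(haar G) = ENNReal.ofReal (∫ χ, den φ B χ ∂(haar G)) :=
    (ofReal_integral_eq_lintegral_ofReal (integrable_of_cont (continuous_den φ B) _)
      (Eventually.of_forall fun χ => den_nonneg h B χ)).symm
  rw [int_den h hB, ENNReal.ofReal_one] at h1
  exact h1

theorem approx_int {φ : G → ℝ} (h : PD φ) (B : Finset G) (g : Ch G → ℝ) :
    ∫ χ, g χ ∂(approx φ B) = ∫ χ, den φ B χ * g χ ∂(haar G) := by
  rw [approx, integral_withDensity_eq_integral_smul (continuous_den φ B).measurable.real_toNNReal]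
  refine integral_congr_ae (Eventually.of_forall fun χ => ?_)
  show (den φ B χ).toNNReal • g χ = _
  rw [NNReal.smul_def, Real.coe_toNNReal _ (den_nonneg h B χ), smul_eq_mul]

/-- **Bochner's theorem** on the compact group of characters -/
theorem bochner_ch {φ : G → ℝ} (h : PD φ) : ∃ P : ProbabilityMeasure (Ch G),
    ∀ x, ∫ χ, ev x χ ∂(P : Measure (Ch G)) = (φ x : ℂ) := by
  classical
  -- approximations, indexed by finite sets and precision
  have hex : ∀ i : Finset G × ℕ, ∃ P : ProbabilityMeasure (Ch G), ∀ x ∈ i.1,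
      |∫ χ, (ev x χ).re ∂(P : Measure (Ch G)) - φ x| ≤ 1 / ((i.2 : ℝ) + 1) ∧
      ∫ χ, (ev x χ).im ∂(P : Measure (Ch G)) = 0 := by
    rintro ⟨F, n⟩
    obtain ⟨B, hB, hF⟩ := exists_folner F (ε := 1 / ((n : ℝ) + 1)) (by positivity)
    have := approx_prob h hB
    refine ⟨⟨approx φ B, approx_prob h hB⟩, fun x hx => ⟨?_, ?_⟩⟩
    · show |∫ χ, (ev x χ).re ∂(approx φ B) - φ x| ≤ 1 / ((n : ℝ) + 1)
      rw [approx_int h, int_den_re h]
      have hc : (0 : ℝ) < B.card := by exact_mod_cast hB.card_pos
      have h1 := hF x hx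
      have h2 : (cnt B x : ℝ) ≤ B.card := by exact_mod_cast cnt_le B x
      have h3 : φ x * ((cnt B x : ℝ) / B.card) - φ x = -(φ x * (1 - (cnt B x : ℝ) / B.card)) := by
        ring
      have h4 : (cnt B x : ℝ) / B.card ≤ 1 := (div_le_one hc).2 h2
      have h5 : 1 - 1 / ((n : ℝ) + 1) ≤ (cnt B x : ℝ) / B.card := (le_div_iff₀ hc).2 h1
      rw [h3, abs_neg, abs_mul, abs_of_nonneg (sub_nonneg.2 h4)]
      calc |φ x| * (1 - (cnt B x : ℝ) / B.card) ≤ 1 * (1 - (cnt B x : ℝ) / B.card) :=
            mul_le_mul_of_nonneg_right (h.bd x) (sub_nonneg.2 h4)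
        _ ≤ 1 / ((n : ℝ) + 1) := by linarith
    · show ∫ χ, (ev x χ).im ∂(approx φ B) = 0
      rw [approx_int h, int_den_im]
  choose P hP using hex
  -- a limit along an ultrafilter
  set U : Ultrafilter (Finset G × ℕ) := Ultrafilter.of atTop with hU
  have hUa : (U : Filter (Finset G × ℕ)) ≤ atTop := Ultrafilter.of_le _
  obtain ⟨Q, -, hQ⟩ := (isCompact_univ (X := ProbabilityMeasure (Ch G))).ultrafilter_le_nhds
    (U.map P) (by rw [le_principal_iff]; exact Filter.univ_mem)
  have hT : Tendsto P (U : Filter (Finset G × ℕ)) (𝓝 Q) := hQ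
  rw [ProbabilityMeasure.tendsto_iff_forall_integral_tendsto] at hT
  refine ⟨Q, fun x => ?_⟩
  have hev : ∀ᶠ i in (U : Filter (Finset G × ℕ)), x ∈ i.1 := by
    refine hUa ?_
    filter_upwards [eventually_ge_atTop (({x} : Finset G), 0)] with i hi
    exact hi.1 (Finset.mem_singleton_self x)
  have hre : ∫ χ, (ev x χ).re ∂(Q : Measure (Ch G)) = φ x := by
    have h1 := hT (BoundedContinuousFunction.mkOfCompact
      ⟨fun χ => (ev x χ).re, Complex.continuous_re.comp (continuous_ev x)⟩)
    refine tendsto_nhds_unique h1 ?_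
    have h2 : Tendsto (fun i : Finset G × ℕ => 1 / ((i.2 : ℝ) + 1)) (U : Filter (Finset G × ℕ))
        (𝓝 0) := by
      refine Tendsto.mono_left ?_ hUa
      have h3 : Tendsto (fun i : Finset G × ℕ => i.2) atTop atTop := by
        rw [← Filter.prod_atTop_atTop_eq]
        exact tendsto_snd
      exact tendsto_one_div_add_atTop_nhds_zero_nat.comp h3
    rw [tendsto_iff_norm_sub_tendsto_zero]
    refine squeeze_zero' (Eventually.of_forall fun _ => norm_nonneg _) ?_ h2
    filter_upwards [hev] with i hi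
    exact (hP i x hi).1
  have him : ∫ χ, (ev x χ).im ∂(Q : Measure (Ch G)) = 0 := by
    have h1 := hT (BoundedContinuousFunction.mkOfCompact
      ⟨fun χ => (ev x χ).im, Complex.continuous_im.comp (continuous_ev x)⟩)
    refine tendsto_nhds_unique h1 ?_
    refine Tendsto.congr' ?_ tendsto_const_nhds
    filter_upwards [hev] with i hi
    exact ((hP i x hi).2).symm
  rw [int_re] at hre
  rw [int_im] at him
  apply Complex.ext
  · rw [hre, Complex.ofReal_re]
  · rw [him, Complex.ofReal_im]

end Pool.Agent.Helper91.RG
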