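import Pool.Agent.Helper91.RG.BB
import Pool.Agent.Helper1.RG.Defs

/-! Bochner's theorem for discrete abelian groups, part C: the space `Om` of the project RG, existence and
uniqueness. -/

set_option autoImplicit false

open MeasureTheory Filter Topology TopologicalSpace

namespace Pool.Agent.Helper91.RG

noncomputable local instance instMC : MeasurableSpace Circle := borel Circle
local instance instBC : BorelSpace Circle := ⟨rfl⟩

section Torus
variable {ι : Type} [Fintype ι]

theorem continuous_coe : Continuous fun z : Circle => (z : ℂ) := continuous_subtype_val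

theorem continuous_mon (n : ι → ℤ) : Continuous fun z : ι → Circle => (∏ i, z i ^ n i : Circle) := by
  refine continuous_finsetProd _ fun i _ => ?_
  exact (continuous_apply i).zpow (n i)

/-- monomials on the torus -/
noncomputable def mono (n : ι → ℤ) : BoundedContinuousFunction (ι → Circle) ℂ :=
  BoundedContinuousFunction.mkOfCompact ⟨fun z => ((∏ i, z i ^ n i : Circle) : ℂ),
    continuous_coe.comp (continuous_mon n)⟩

theorem mono_apply (n : ι → ℤ) (z : ι → Circle) : mono n z = ((∏ i, z i ^ n i : Circle) : ℂ) := rfl

theorem mono_mul (n m : ι → ℤ) : mono n * mono m = mono (n + m) := by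
  ext z
  rw [BoundedContinuousFunction.mul_apply, mono_apply, mono_apply, mono_apply, ← Circle.coe_mul,
    ← Finset.prod_mul_distrib]
  congr 2
  funext i
  rw [Pi.add_apply, zpow_add]

theorem mono_zero : mono (0 : ι → ℤ) = 1 := by
  ext z
  rw [mono_apply]
  show ((∏ i, z i ^ (0 : ℤ) : Circle) : ℂ) = 1
  simp

theorem star_mono (n : ι → ℤ) : star (mono n) = mono (-n) := by
  ext z
  rw [BoundedContinuousFunction.star_apply, mono_apply, mono_apply]
  have h : (∏ i, z i ^ (-n) i : Circle) = (∏ i, z i ^ n i)⁻¹ := by
    rw [← Finset.prod_inv_distrib]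
    congr 1
    funext i
    rw [Pi.neg_apply, zpow_neg]
  rw [h, Circle.coe_inv_eq_conj]
  rfl

/-- trigonometric polynomials -/
noncomputable def trig (ι : Type) [Fintype ι] :
    StarSubalgebra ℂ (BoundedContinuousFunction (ι → Circle) ℂ) where
  toSubalgebra := (Submodule.span ℂ (Set.range (mono (ι := ι)))).toSubalgebra
    (by rw [← mono_zero]; exact Submodule.subset_span ⟨0, rfl⟩) (by
    intro x y hx hy
    induction hx using Submodule.span_induction with
    | mem x hx =>
      obtain ⟨n, rfl⟩ := hx
      induction hy using Submodule.span_induction with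
      | mem y hy =>
        obtain ⟨m, rfl⟩ := hy
        rw [mono_mul]
        exact Submodule.subset_span ⟨_, rfl⟩
      | zero =>
        rw [mul_zero]
        exact Submodule.zero_mem _
      | add y z _ _ h1 h2 =>
        rw [mul_add]
        exact Submodule.add_mem _ h1 h2
      | smul a y _ h1 =>
        rw [mul_smul_comm]
        exact Submodule.smul_mem _ _ h1
    | zero =>
      rw [zero_mul]
      exact Submodule.zero_mem _
    | add x z _ _ h1 h2 =>
      rw [add_mul]
      exact Submodule.add_mem _ h1 h2
    | smul a x _ h1 =>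
      rw [smul_mul_assoc]
      exact Submodule.smul_mem _ _ h1)
  star_mem' := by
    intro x hx0
    have hx' : x ∈ Submodule.span ℂ (Set.range (mono (ι := ι))) := hx0
    show star x ∈ Submodule.span ℂ (Set.range (mono (ι := ι)))
    clear hx0
    induction hx' using Submodule.span_induction with
    | mem x hx =>
      obtain ⟨n, rfl⟩ := hx
      rw [star_mono]
      exact Submodule.subset_span ⟨_, rfl⟩
    | zero =>
      rw [star_zero]
      exact Submodule.zero_mem _
    | add x z _ _ h1 h2 =>
      rw [star_add]
      exact Submodule.add_mem _ h1 h2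
    | smul a x _ h1 =>
      rw [star_smul]
      exact Submodule.smul_mem _ _ h1

theorem mem_trig (x : BoundedContinuousFunction (ι → Circle) ℂ) :
    x ∈ trig ι ↔ x ∈ Submodule.span ℂ (Set.range (mono (ι := ι))) := Iff.rfl

theorem trig_sep : ((trig ι).map
    (BoundedContinuousFunction.toContinuousMapStarₐ ℂ)).SeparatesPoints := by
  classical
  intro z w hzw
  obtain ⟨i, hi⟩ : ∃ i, z i ≠ w i := by
    by_contra h
    push Not at h
    exact hzw (funext h)
  have hval : ∀ v : ι → Circle, mono (Pi.single i (1 : ℤ)) v = (v i : ℂ) := by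
    intro v
    rw [mono_apply]
    congr 1
    rw [Finset.prod_eq_single i]
    · rw [Pi.single_eq_same, zpow_one]
    · intro j _ hj
      rw [Pi.single_eq_of_ne hj, zpow_zero]
    · intro h
      exact absurd (Finset.mem_univ i) h
  refine ⟨fun v => mono (Pi.single i (1 : ℤ)) v, ?_, ?_⟩
  · simp only [StarSubalgebra.coe_toSubalgebra, StarSubalgebra.coe_map, Set.mem_image,
      SetLike.mem_coe, exists_exists_and_eq_and]
    exact ⟨mono (Pi.single i (1 : ℤ)), (mem_trig _).2 (Submodule.subset_span ⟨_, rfl⟩), rfl⟩
  · show mono (Pi.single i (1 : ℤ)) z ≠ mono (Pi.single i (1 : ℤ)) w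
    rw [hval, hval]
    intro h
    exact hi (Circle.coe_injective h)

/-- finite measures on a torus are determined by their Fourier coefficients -/
theorem torus_unique (P P' : Measure (ι → Circle)) [IsFiniteMeasure P] [IsFiniteMeasure P']
    (h : ∀ n : ι → ℤ, ∫ z, ((∏ i, z i ^ n i : Circle) : ℂ) ∂P =
      ∫ z, ((∏ i, z i ^ n i : Circle) : ℂ) ∂P') : P = P' := by
  refine ext_of_forall_mem_subalgebra_integral_eq_of_polish (𝕜 := ℂ) (A := trig ι) trig_sep ?_
  intro g hg
  have hg' := (mem_trig g).1 hg
  clear hg
  induction hg' using Submodule.span_induction with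
  | mem x hx =>
    obtain ⟨n, rfl⟩ := hx
    exact h n
  | zero =>
    simp
  | add x y _ _ h1 h2 =>
    have e : ∀ μ : Measure (ι → Circle), IsFiniteMeasure μ →
        ∫ z, (x + y) z ∂μ = ∫ z, x z ∂μ + ∫ z, y z ∂μ := by
      intro μ _
      rw [← integral_add (x.integrable μ) (y.integrable μ)]
      rfl
    rw [e P inferInstance, e P' inferInstance, h1, h2]
  | smul a x _ h1 =>
    have e : ∀ μ : Measure (ι → Circle), ∫ z, (a • x) z ∂μ = a * ∫ z, x z ∂μ := by
      intro μ
      rw [← integral_const_mul]
      rfl
    rw [e P, e P', h1]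

end Torus

section Chars
open Pool.Agent.Helper1.RG

theorem sig_eq : (instMeasOm : MeasurableSpace Om) =
    MeasurableSpace.comap (fun (χ : Om) (x : ℂ) => χ x) MeasurableSpace.pi := by
  show MeasurableSpace.comap _ _ = _
  unfold MeasurableSpace.pi
  rw [MeasurableSpace.comap_iSup, MeasurableSpace.comap_iSup]
  have h : ∀ x : ℂ, MeasurableSpace.comap (fun χ : Om => χ x) (borel Circle) =
      MeasurableSpace.comap (fun χ : Om => Pool.Agent.Helper1.RG.ev x χ) (borel ℂ) := by
    intro x
    have h1 : borel Circle = MeasurableSpace.comap (fun z : Circle => (z : ℂ)) (borel ℂ) :=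
      borel_comap (f := fun z : Circle => (z : ℂ))
    rw [h1, MeasurableSpace.comap_comp]
    rfl
  refine le_antisymm (iSup_le fun x => ?_) (iSup_le fun x => ?_)
  · rw [MeasurableSpace.comap_comp]
    refine le_trans (le_of_eq (h (x : ℂ)).symm) ?_
    refine le_trans ?_ (le_iSup _ (x : ℂ))
    rw [MeasurableSpace.comap_comp]
    exact le_rfl
  · rw [MeasurableSpace.comap_comp]
    refine le_trans (le_of_eq (h x)) ?_
    refine le_trans ?_ (le_iSup _ (⟨x, Set.mem_univ x⟩ : (Set.univ : Set ℂ)))
    rw [MeasurableSpace.comap_comp]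
    exact le_rfl

theorem measurable_eval (x : ℂ) : Measurable fun χ : Om => χ x := by
  rw [measurable_iff_comap_le, sig_eq]
  unfold MeasurableSpace.pi
  rw [MeasurableSpace.comap_iSup]
  refine le_trans ?_ (le_iSup _ x)
  rw [MeasurableSpace.comap_comp]
  exact le_rfl

theorem measurable_ev (x : ℂ) : Measurable (Pool.Agent.Helper1.RG.ev x) :=
  continuous_coe.measurable.comp (measurable_eval x)

/-- a map into the characters is measurable if all evaluations are -/
theorem measurable_to {α : Type} [MeasurableSpace α] {f : α → Om}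
    (h : ∀ x, Measurable fun a => f a x) : Measurable f := by
  rw [measurable_iff_comap_le, sig_eq]
  unfold MeasurableSpace.pi
  rw [MeasurableSpace.comap_iSup, MeasurableSpace.comap_iSup, iSup_le_iff]
  intro x
  rw [MeasurableSpace.comap_comp, MeasurableSpace.comap_comp]
  exact measurable_iff_comap_le.1 (h x)

theorem map_sum_zsmul (χ : Om) {ι : Type} (s : Finset ι) (n : ι → ℤ) (x : ι → ℂ) :
    χ (∑ i ∈ s, n i • x i) = ∏ i ∈ s, χ (x i) ^ n i := by
  classical
  induction s using Finset.induction_on with
  | empty => simp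
  | insert i s hi ih =>
    rw [Finset.sum_insert hi, Finset.prod_insert hi, AddChar.map_add_eq_mul, ih]
    congr 1
    exact AddChar.map_zsmul_eq_zpow χ (n i) (x i)

/-- **uniqueness**: a finite measure on the characters is determined by its Fourier coefficients -/
theorem char_unique (P P' : Measure Om) [IsFiniteMeasure P] [IsFiniteMeasure P']
    (h : ∀ x : ℂ, ∫ χ, Pool.Agent.Helper1.RG.ev x χ ∂P = ∫ χ, Pool.Agent.Helper1.RG.ev x χ ∂P') :
    P = P' := by
  set j : Om → (ℂ → Circle) := fun χ x => χ x with hj
  have hjm : Measurable j := measurable_pi_iff.2 measurable_eval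
  have key : P.map j = P'.map j := by
    have h1 : IsFiniteMeasure (P.map j) := inferInstance
    have h2 : IsFiniteMeasure (P'.map j) := inferInstance
    have h3 : ∀ I : Finset ℂ, (P.map j).map I.restrict = (P'.map j).map I.restrict := by
      intro I
      have hr : Measurable (I.restrict : (ℂ → Circle) → (I → Circle)) :=
        Finset.measurable_restrict I
      refine torus_unique _ _ fun n => ?_
      have h4 : ∀ Q : Measure Om,
          ∫ z, ((∏ i, z i ^ n i : Circle) : ℂ) ∂((Q.map j).map I.restrict) =
            ∫ χ, Pool.Agent.Helper1.RG.ev (∑ i : I, n i • (i : ℂ)) χ ∂Q := by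
        intro Q
        rw [Measure.map_map hr hjm, integral_map (hr.comp hjm).aemeasurable]
        · refine integral_congr_ae (Eventually.of_forall fun χ => ?_)
          show ((∏ i : I, χ (i : ℂ) ^ n i : Circle) : ℂ) = ((χ _ : Circle) : ℂ)
          rw [map_sum_zsmul]
        · exact (mono n).continuous.aestronglyMeasurable
      rw [h4 P, h4 P', h]
    exact IsProjectiveLimit.unique (P := fun I => (P'.map j).map I.restrict) h3 fun I => rfl
  refine Measure.ext fun s hs => ?_
  have hs' : MeasurableSet[MeasurableSpace.comap j MeasurableSpace.pi] s := by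
    rw [← sig_eq]
    exact hs
  obtain ⟨t, ht, rfl⟩ := hs'
  rw [← Measure.map_apply hjm ht, ← Measure.map_apply hjm ht, key]

/-- row UNI -/
theorem st_UNI : ST_UNI := by
  intro P P' _ _ h
  exact char_unique P P' h

/-- the character as an element of `AddChar` -/
def toAdd (χ : Ch ℂ) : Om where
  toFun := app χ
  map_zero_eq_one' := app_zero χ
  map_add_eq_mul' := app_add χ

theorem measurable_toAdd : Measurable toAdd :=
  measurable_to fun x => (continuous_app x).measurable

theorem pd_of_rpd {F : ℝ → ℝ} (hF : Pool.Agent.Helper16.RA.RPD F) :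
    PD fun z : ℂ => F (Complex.normSq z) := by
  refine ⟨?_, fun x => hF.bd _, fun x => ?_, fun s w => ?_⟩
  · show F (Complex.normSq 0) = 1
    rw [map_zero]
    exact hF.one
  · show F (Complex.normSq (-x)) = F (Complex.normSq x)
    rw [Complex.normSq_neg]
  · have h1 := hF.pd s.card (fun i => ((s.equivFin.symm i : s) : ℂ))
      (fun i => w ((s.equivFin.symm i : s) : ℂ))
    have h2 : ∀ f : ℂ → ℝ, ∑ a ∈ s, f a = ∑ i : Fin s.card, f ((s.equivFin.symm i : s) : ℂ) := by
      intro f
      rw [← Finset.sum_coe_sort s f]
      exact (Equiv.sum_comp s.equivFin.symm (fun a : s => f (a : ℂ))).symm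
    rw [h2]
    simp only [h2 fun b => _]
    exact h1

/-- **Bochner's theorem** for the radial positive definite functions: rows BO1 - BO4 together -/
theorem bochner {F : ℝ → ℝ} (hF : Pool.Agent.Helper16.RA.RPD F) :
    ∃ P : Measure Om, IsProbabilityMeasure P ∧
      ∀ z, ∫ χ, Pool.Agent.Helper1.RG.ev z χ ∂P = (F (Complex.normSq z) : ℂ) := by
  obtain ⟨Q, hQ⟩ := bochner_ch (pd_of_rpd hF)
  refine ⟨(Q : Measure (Ch ℂ)).map toAdd,
    Measure.isProbabilityMeasure_map measurable_toAdd.aemeasurable, fun x => ?_⟩
  rw [integral_map measurable_toAdd.aemeasurable (measurable_ev x).aestronglyMeasurable]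
  exact hQ x

end Chars

end Pool.Agent.Helper91.RG
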