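import Pool.Agent.Helper67.RG.EStmts

/-! Module FIN. -/

set_option autoImplicit false

namespace Pool.Agent.Helper67.RG

open Polynomial

theorem fin_tau {P : ℂ[X]} (h : aeval tau P = 0) : P = 0 := by
  have h1 : aeval tau P = algebraMap (RatFunc ℂ) Om (algebraMap ℂ[X] (RatFunc ℂ) P) := by
    rw [tau, aeval_algebraMap_apply]
    congr 1
    have := aeval_algebraMap_apply (RatFunc ℂ) (X : ℂ[X]) P
    rw [aeval_X_left_apply] at this
    rw [← this]
    congr 1
  rw [h1, map_eq_zero_iff _ (algebraMap (RatFunc ℂ) Om).injective,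
    map_eq_zero_iff _ (IsFractionRing.injective ℂ[X] (RatFunc ℂ))] at h
  exact h

theorem fin_indep : AlgebraicIndependent ℂ ![(X ^ 2 : Om[X]), C tau * X ^ 2] := by
  rw [algebraicIndependent_iff]
  intro p hp
  classical
  have h1 : ∀ d : Fin 2 →₀ ℕ, MvPolynomial.aeval ![(X ^ 2 : Om[X]), C tau * X ^ 2]
      (MvPolynomial.monomial d (p.coeff d)) =
      monomial (2 * (d 0 + d 1)) (algebraMap ℂ Om (p.coeff d) * tau ^ d 1) := by
    intro d
    rw [MvPolynomial.aeval_monomial, Finsupp.prod_fintype _ _ (fun i => pow_zero _), Fin.prod_univ_two]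
    simp only [Matrix.cons_val_zero, Matrix.cons_val_one]
    rw [← C_mul_X_pow_eq_monomial, mul_pow, ← C_pow, C_mul]
    have : algebraMap ℂ Om[X] (p.coeff d) = C (algebraMap ℂ Om (p.coeff d)) := rfl
    rw [this]
    ring
  have h2 : MvPolynomial.aeval ![(X ^ 2 : Om[X]), C tau * X ^ 2] p =
      ∑ d ∈ p.support, monomial (2 * (d 0 + d 1)) (algebraMap ℂ Om (p.coeff d) * tau ^ d 1) := by
    conv_lhs => rw [p.as_sum]
    rw [map_sum]
    exact Finset.sum_congr rfl fun d _ => h1 d
  rw [h2] at hp
  ext e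
  rw [MvPolynomial.coeff_zero]
  set n := e 0 + e 1 with hn
  have h3 : ∑ d ∈ p.support.filter (fun d => d 0 + d 1 = n),
      algebraMap ℂ Om (p.coeff d) * tau ^ d 1 = 0 := by
    have h4 := congrArg (fun q => coeff q (2 * n)) hp
    simp only [finsetSum_coeff, coeff_monomial, coeff_zero] at h4
    rw [Finset.sum_filter]
    refine Eq.trans (Finset.sum_congr rfl fun d _ => ?_) h4
    by_cases h : d 0 + d 1 = n
    · rw [if_pos h, if_pos (by rw [h])]
    · rw [if_neg h, if_neg (by omega)]
  have h5 : aeval tau (∑ d ∈ p.support.filter (fun d => d 0 + d 1 = n),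
      monomial (d 1) (p.coeff d)) = 0 := by
    rw [map_sum, ← h3]
    refine Finset.sum_congr rfl fun d _ => ?_
    rw [aeval_monomial]
  have h6 := fin_tau h5
  have h7 := congrArg (fun q => coeff q (e 1)) h6
  simp only [finsetSum_coeff, coeff_monomial, coeff_zero] at h7
  by_contra hne
  have he : e ∈ p.support.filter (fun d => d 0 + d 1 = n) := by
    rw [Finset.mem_filter, MvPolynomial.mem_support_iff]
    exact ⟨hne, rfl⟩
  rw [Finset.sum_eq_single_of_mem e he] at h7
  · rw [if_pos rfl] at h7
    exact hne h7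
  · intro d hd hde
    rw [if_neg]
    intro h8
    apply hde
    rw [Finset.mem_filter] at hd
    ext i
    fin_cases i
    · show d 0 = e 0
      have := hd.2
      omega
    · exact h8

theorem fin_A0 : A0 = Algebra.adjoin ℂ (Set.range ![(X ^ 2 : Om[X]), C tau * X ^ 2]) := by
  rw [A0]
  congr 1
  rw [Matrix.range_cons, Matrix.range_cons, Matrix.range_empty, Set.union_empty]
  rfl

noncomputable def finE : MvPolynomial (Fin 2) ℂ ≃ₐ[ℂ] A0 :=
  fin_indep.aevalEquiv.trans (Subalgebra.equivOfEq _ _ fin_A0.symm)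

instance fin_noeth : IsNoetherianRing A0 :=
  isNoetherianRing_of_ringEquiv (MvPolynomial (Fin 2) ℂ) finE.toRingEquiv

instance fin_ic : IsIntegrallyClosed A0 :=
  IsIntegrallyClosed.of_equiv finE.toRingEquiv

namespace Tower

variable {ν : ℕ} {D : Pell ν} (T : Tower D)

theorem A0_le_B : A0 ≤ T.B := by
  rw [A0, Algebra.adjoin_le_iff]
  have hE : ∀ c ∈ T.E 0, IsIntegral A0 (C c * X ^ 2 : Om[X]) → (C c * X ^ 2 : Om[X]) ∈ T.B := by
    intro c hc hi
    refine ⟨hi, fun m => ?_⟩
    rw [C_mul_X_pow_eq_monomial, coeff_monomial]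
    split_ifs with h
    · subst h
      rw [T.E_congr (show 2 % 2 = 0 % 2 from rfl)]
      exact hc
    · exact Submodule.zero_mem _
  rintro x (rfl | hx)
  · have h := hE 1 T.one_mem_E (by
      rw [C_1, one_mul]
      exact isIntegral_algebraMap (R := A0) (x := ⟨_, s_mem⟩))
    rwa [C_1, one_mul] at h
  · rw [Set.mem_singleton_iff] at hx
    subst hx
    exact hE tau (T.alg_mem_E _) (isIntegral_algebraMap (R := A0) (x := ⟨_, t_mem⟩))

end Tower

theorem fin_abs {A K F S : Type} [CommRing A] [IsNoetherianRing A] [Field K] [Algebra A K]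
    [Field F] [Algebra K F] [Algebra A F] [IsScalarTower A K F] [CommRing S] [Algebra A S]
    [Algebra S F] [IsScalarTower A S F] (hinj : Function.Injective (algebraMap S F))
    (L : IntermediateField K F) [Module.Finite A (integralClosure A L)] (N : Submodule A S)
    (h : ∀ P ∈ N, IsIntegral A P ∧ algebraMap S F P ∈ L) : N.FG := by
  have h0 : IsNoetherian A (integralClosure A L) :=
    isNoetherian_of_isNoetherianRing_of_finite A _
  let ψ : integralClosure A L →ₗ[A] F :=
    { toFun := fun x => ((x : L) : F)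
      map_add' := fun _ _ => rfl
      map_smul' := fun _ _ => rfl }
  have hr : IsNoetherian A (LinearMap.range ψ) :=
    isNoetherian_of_surjective ψ.rangeRestrict
      (LinearMap.range_eq_top.2 ψ.surjective_rangeRestrict)
  let j : S →ₗ[A] F := (IsScalarTower.toAlgHom A S F).toLinearMap
  have hle : N.map j ≤ LinearMap.range ψ := by
    rintro _ ⟨P, hP, rfl⟩
    have h1 : IsIntegral A (algebraMap S F P) := (h P hP).1.algebraMap
    have h2 : IsIntegral A (⟨algebraMap S F P, (h P hP).2⟩ : L) := by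
      have h4 : IsScalarTower A L F := IsScalarTower.of_algebraMap_eq fun _ => rfl
      have h3 : Function.Injective (algebraMap L F) := (algebraMap L F).injective
      exact (isIntegral_algebraMap_iff (R := A) h3).1 h1
    exact ⟨⟨⟨algebraMap S F P, (h P hP).2⟩, h2⟩, rfl⟩
  have hfg : (N.map j).FG := (isNoetherian_submodule.1 hr) _ hle
  exact Submodule.fg_of_fg_map_injective j hinj hfg

section
variable {ν : ℕ} {D : Pell ν} (T : Tower D)

attribute [local instance] FractionRing.liftAlgebra

/-- the three types of generators of the field -/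
def finSet : Set (FractionRing Om[X]) :=
  algebraMap Om[X] (FractionRing Om[X]) '' ({X, C T.w} ∪ Set.range fun i => C (T.r i))

theorem finSet_finite : (finSet T).Finite :=
  (((Set.finite_singleton _).insert _).union (Set.finite_range _)).image _

theorem fin_scalar : IsScalarTower A0 (FractionRing A0) (FractionRing Om[X]) := inferInstance

theorem fin_K_of_A0 {a b : Om[X]} (ha : a ∈ A0) (hb : b ∈ A0) (hb0 : b ≠ 0) {c : Om[X]}
    (h : c * b = a) : ∃ k : FractionRing A0, algebraMap (FractionRing A0) (FractionRing Om[X]) k =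
      algebraMap Om[X] (FractionRing Om[X]) c := by
  refine ⟨algebraMap A0 (FractionRing A0) ⟨a, ha⟩ / algebraMap A0 (FractionRing A0) ⟨b, hb⟩, ?_⟩
  have hb1 : algebraMap Om[X] (FractionRing Om[X]) b ≠ 0 := by
    rw [Ne, map_eq_zero_iff _ (IsFractionRing.injective Om[X] (FractionRing Om[X]))]
    exact hb0
  have e : ∀ x : A0, algebraMap (FractionRing A0) (FractionRing Om[X])
      (algebraMap A0 (FractionRing A0) x) = algebraMap Om[X] (FractionRing Om[X]) (x : Om[X]) := by
    intro x
    rw [← IsScalarTower.algebraMap_apply A0 (FractionRing A0) (FractionRing Om[X]),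
      IsScalarTower.algebraMap_apply A0 Om[X] (FractionRing Om[X])]
    rfl
  rw [map_div₀, e, e, div_eq_iff hb1, ← map_mul, h]

theorem fin_K_tau : ∃ k : FractionRing A0, algebraMap (FractionRing A0) (FractionRing Om[X]) k =
      algebraMap Om[X] (FractionRing Om[X]) (C tau) :=
  fin_K_of_A0 Tower.t_mem Tower.s_mem (pow_ne_zero 2 X_ne_zero) rfl

theorem fin_K_poly (P : ℂ[X]) : ∃ k : FractionRing A0,
    algebraMap (FractionRing A0) (FractionRing Om[X]) k =
      algebraMap Om[X] (FractionRing Om[X]) (C (aeval tau P)) := by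
  induction P using Polynomial.induction_on' with
  | add p q hp hq =>
    obtain ⟨a, ha⟩ := hp
    obtain ⟨b, hb⟩ := hq
    exact ⟨a + b, by rw [map_add, ha, hb, map_add, C_add, map_add]⟩
  | monomial n c =>
    obtain ⟨k, hk⟩ := fin_K_tau
    obtain ⟨l, hl⟩ := fin_K_of_A0 (a := C (algebraMap ℂ Om c)) (b := 1) (c := C (algebraMap ℂ Om c))
      (A0.algebraMap_mem c) A0.one_mem one_ne_zero (mul_one _)
    exact ⟨l * k ^ n, by rw [map_mul, map_pow, hk, hl, aeval_monomial, C_mul, C_pow, map_mul, map_pow]⟩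

theorem fin_K_rat (f : RatFunc ℂ) : ∃ k : FractionRing A0,
    algebraMap (FractionRing A0) (FractionRing Om[X]) k =
      algebraMap Om[X] (FractionRing Om[X]) (C (algebraMap (RatFunc ℂ) Om f)) := by
  obtain ⟨a, ha⟩ := fin_K_poly f.num
  obtain ⟨b, hb⟩ := fin_K_poly f.denom
  have e : ∀ P : ℂ[X], aeval tau P = algebraMap (RatFunc ℂ) Om (algebraMap ℂ[X] (RatFunc ℂ) P) := by
    intro P
    rw [tau, aeval_algebraMap_apply]
    congr 1
    have := aeval_algebraMap_apply (RatFunc ℂ) (X : ℂ[X]) P
    rw [aeval_X_left_apply] at this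
    rw [← this]
    congr 1
  have hd : aeval tau f.denom ≠ 0 := fun h => f.denom_ne_zero (fin_tau h)
  have h1 : algebraMap (RatFunc ℂ) Om f * aeval tau f.denom = aeval tau f.num := by
    rw [e, e, ← map_mul]
    congr 1
    nth_rw 1 [← RatFunc.num_div_denom f]
    rw [div_mul_cancel₀]
    rw [Ne, map_eq_zero_iff _ (IsFractionRing.injective ℂ[X] (RatFunc ℂ))]
    exact f.denom_ne_zero
  have hb1 : algebraMap Om[X] (FractionRing Om[X]) (C (aeval tau f.denom)) ≠ 0 := by
    rw [Ne, map_eq_zero_iff _ (IsFractionRing.injective Om[X] (FractionRing Om[X])), C_eq_zero]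
    exact hd
  refine ⟨a / b, ?_⟩
  rw [map_div₀, ha, hb, div_eq_iff hb1, ← map_mul, ← C_mul, h1]

theorem fin_int : ∀ x ∈ finSet T, IsIntegral (FractionRing A0) x := by
  have hK : ∀ {c : Om[X]}, (∃ k : FractionRing A0, algebraMap (FractionRing A0)
      (FractionRing Om[X]) k = algebraMap Om[X] (FractionRing Om[X]) c) →
      IsIntegral (FractionRing A0) (algebraMap Om[X] (FractionRing Om[X]) c) := by
    rintro c ⟨k, hk⟩
    rw [← hk]
    exact isIntegral_algebraMap
  have hr : ∀ i, IsIntegral (FractionRing A0) (algebraMap Om[X] (FractionRing Om[X]) (C (T.r i))) := by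
    intro i
    refine IsIntegral.of_pow (n := 2) (by norm_num) ?_
    rw [← map_pow, ← C_pow, T.hr i, tau_sub_mem]
    exact hK (fin_K_rat _)
  have hprod : ∀ s : Finset (Fin 12), IsIntegral (FractionRing A0)
      (algebraMap Om[X] (FractionRing Om[X]) (C (∏ i ∈ s, T.r i))) := by
    intro s
    rw [map_prod, map_prod]
    exact IsIntegral.prod _ fun i _ => hr i
  rintro _ ⟨c, hc, rfl⟩
  rcases hc with (rfl | hc) | ⟨i, rfl⟩
  · refine IsIntegral.of_pow (n := 2) (by norm_num) ?_
    rw [← map_pow]
    exact hK (fin_K_of_A0 Tower.s_mem A0.one_mem one_ne_zero (mul_one _))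
  · rw [Set.mem_singleton_iff] at hc
    subst hc
    refine IsIntegral.of_pow (n := ν) (by have := D.hν; omega) ?_
    rw [← map_pow, ← C_pow, T.hw, C_add, C_mul, C_mul, map_add, map_mul, map_mul]
    obtain ⟨c1, h1⟩ := Tower.aeval_tau_mem D.p
    obtain ⟨c2, h2⟩ := Tower.aeval_tau_mem D.q
    rw [h1, h2]
    exact ((hK (fin_K_rat _)).mul (hprod _)).add ((hK (fin_K_rat _)).mul (hprod _))
  · exact hr i

/-- the field generated by `X`, the `r i` and `w` -/
noncomputable def finL : IntermediateField (FractionRing A0) (FractionRing Om[X]) :=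
  IntermediateField.adjoin (FractionRing A0) (finSet T)

theorem finL_fd : FiniteDimensional (FractionRing A0) (finL T) := by
  have hfs : Finite (finSet T) := (finSet_finite T).to_subtype
  exact IntermediateField.finiteDimensional_adjoin (fin_int T)

theorem fin_memL_K {c : Om[X]} (h : ∃ k : FractionRing A0, algebraMap (FractionRing A0)
      (FractionRing Om[X]) k = algebraMap Om[X] (FractionRing Om[X]) c) :
    algebraMap Om[X] (FractionRing Om[X]) c ∈ finL T := by
  obtain ⟨k, hk⟩ := h
  rw [← hk]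
  exact (finL T).algebraMap_mem k

theorem fin_memL_set {c : Om[X]} (h : c ∈ ({X, C T.w} ∪ Set.range fun i => C (T.r i) : Set Om[X])) :
    algebraMap Om[X] (FractionRing Om[X]) c ∈ finL T :=
  IntermediateField.subset_adjoin _ _ ⟨c, h, rfl⟩

theorem fin_memL_E {m : ℕ} {z : Om} (hz : z ∈ T.E m) :
    algebraMap Om[X] (FractionRing Om[X]) (C z) ∈ finL T := by
  rw [Tower.E] at hz
  induction hz using Submodule.span_induction with
  | mem x hx =>
    obtain ⟨s, i, _, _, rfl⟩ := hx
    rw [C_mul, C_pow, map_mul, map_pow, Tower.rr, map_prod, map_prod]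
    refine mul_mem (prod_mem fun i _ => fin_memL_set T (Or.inr ⟨i, rfl⟩)) (pow_mem ?_ _)
    exact fin_memL_set T (Or.inl (Or.inr rfl))
  | zero => rw [C_0, map_zero]; exact zero_mem _
  | add x y _ _ hx hy => rw [C_add, map_add]; exact add_mem hx hy
  | smul a x _ hx =>
    rw [Algebra.smul_def, C_mul, map_mul]
    exact mul_mem (fin_memL_K T (fin_K_rat _)) hx

theorem fin_memL {P : Om[X]} (hP : P ∈ T.B) :
    algebraMap Om[X] (FractionRing Om[X]) P ∈ finL T := by
  rw [P.as_sum_support_C_mul_X_pow, map_sum]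
  refine sum_mem fun m _ => ?_
  rw [map_mul, map_pow]
  exact mul_mem (fin_memL_E T (hP.2 m)) (pow_mem (fin_memL_set T (Or.inl (Or.inl rfl))) _)

theorem fin_closure : Module.Finite A0 (integralClosure A0 (finL T)) := by
  have hfd := finL_fd T
  exact IsIntegralClosure.finite A0 (FractionRing A0) (finL T) (integralClosure A0 (finL T))

/-- `B` as a module over `A0` -/
noncomputable def finN : Submodule A0 Om[X] where
  carrier := {P | P ∈ T.B}
  add_mem' := fun ha hb => T.B.add_mem ha hb
  zero_mem' := T.B.zero_mem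
  smul_mem' := fun c _ hx => T.B.mul_mem (T.A0_le_B c.2) hx

theorem finN_fg : (finN T).FG := by
  have hfin := fin_closure T
  exact fin_abs (IsFractionRing.injective Om[X] (FractionRing Om[X])) (finL T) (finN T)
    (fun P hP => ⟨hP.1, fin_memL T hP⟩)

end

theorem st_FIN : ST_FIN := by
  intro ν D T
  obtain ⟨K, b, hb⟩ := Submodule.fg_iff_exists_fin_generating_family.1 (finN_fg T)
  refine ⟨K, b, fun k => ?_, fun z hz => ?_⟩
  · have : b k ∈ finN T := by
      rw [← hb]
      exact Submodule.subset_span ⟨k, rfl⟩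
    exact this
  · have hz' : z ∈ Submodule.span A0 (Set.range b) := by rw [hb]; exact hz
    obtain ⟨c, hc⟩ := (Submodule.mem_span_range_iff_exists_fun A0).1 hz'
    exact ⟨fun k => (c k : Om[X]), fun k => (c k).2, hc.symm⟩

end Pool.Agent.Helper67.RG
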