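import Pool.Agent.Helper91.RG.FIN
import Pool.Agent.Helper91.RG.GRAD

/-! Modules FT, FD, GEN. -/

set_option autoImplicit false

namespace Pool.Agent.Helper67.RG

open Polynomial

/-- the monomials of `ℂ[s, t]` -/
noncomputable def genMon : Set Om[X] := {P | ∃ k i : ℕ, i ≤ k ∧ P = monomial (2 * k) (tau ^ i)}

theorem genMon_mem {P : Om[X]} (h : P ∈ genMon) : P ∈ A0 := by
  obtain ⟨k, i, hik, rfl⟩ := h
  obtain ⟨j, rfl⟩ := Nat.exists_eq_add_of_le hik
  have e : (monomial (2 * (i + j)) (tau ^ i) : Om[X]) = (X ^ 2) ^ j * (C tau * X ^ 2) ^ i := by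
    rw [← C_mul_X_pow_eq_monomial, C_pow]
    ring
  rw [e]
  exact A0.mul_mem (A0.pow_mem Tower.s_mem _) (A0.pow_mem Tower.t_mem _)

theorem gen_span {P : Om[X]} (h : P ∈ A0) : P ∈ Submodule.span ℂ genMon := by
  have hmul : Submodule.span ℂ genMon * Submodule.span ℂ genMon ≤ Submodule.span ℂ genMon := by
    rw [Submodule.span_mul_span, Submodule.span_le]
    rintro _ ⟨_, ⟨k, i, hik, rfl⟩, _, ⟨l, j, hjl, rfl⟩, rfl⟩
    refine Submodule.subset_span ⟨k + l, i + j, by omega, ?_⟩
    show monomial (2 * k) (tau ^ i) * monomial (2 * l) (tau ^ j) = _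
    rw [monomial_mul_monomial, ← pow_add, mul_add]
  rw [A0] at h
  induction h using Algebra.adjoin_induction with
  | mem x hx =>
    rcases hx with rfl | hx
    · exact Submodule.subset_span ⟨1, 0, by omega, by rw [← C_mul_X_pow_eq_monomial]; simp⟩
    · rw [Set.mem_singleton_iff] at hx
      subst hx
      exact Submodule.subset_span ⟨1, 1, le_rfl, by rw [← C_mul_X_pow_eq_monomial]; simp⟩
  | algebraMap c =>
    rw [Algebra.algebraMap_eq_smul_one]
    exact Submodule.smul_mem _ _ (Submodule.subset_span ⟨0, 0, le_rfl, by simp⟩)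
  | add x y _ _ hx hy => exact Submodule.add_mem _ hx hy
  | mul x y _ _ hx hy => exact hmul (Submodule.mul_mem_mul hx hy)

theorem gen_coeff_span {P : Om[X]} (h : P ∈ A0) (e n : ℕ) (hen : e ≤ n) :
    P.coeff e ∈ Submodule.span ℂ (Set.range fun i : Fin (n + 1) => tau ^ (i : ℕ)) := by
  have h1 := gen_span h
  induction h1 using Submodule.span_induction with
  | mem x hx =>
    obtain ⟨k, i, hik, rfl⟩ := hx
    rw [coeff_monomial]
    split_ifs with h2
    · exact Submodule.subset_span ⟨⟨i, by omega⟩, rfl⟩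
    · exact Submodule.zero_mem _
  | zero => rw [coeff_zero]; exact Submodule.zero_mem _
  | add x y hx' hy' hx hy =>
    rw [coeff_add]
    have hxA : x ∈ A0 := (Submodule.span_le (p := Subalgebra.toSubmodule A0)).2
      (fun _ h => genMon_mem h) hx'
    have hyA : y ∈ A0 := (Submodule.span_le (p := Subalgebra.toSubmodule A0)).2
      (fun _ h => genMon_mem h) hy'
    exact Submodule.add_mem _ (hx hxA) (hy hyA)
  | smul c x hx' hx =>
    rw [coeff_smul]
    have hxA : x ∈ A0 := (Submodule.span_le (p := Subalgebra.toSubmodule A0)).2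
      (fun _ h => genMon_mem h) hx'
    exact Submodule.smul_mem _ _ (hx hxA)

theorem gen_coeff_one {P : Om[X]} (h : P ∈ A0) : P.coeff 1 = 0 := by
  have h1 := gen_span h
  clear h
  induction h1 using Submodule.span_induction with
  | mem x hx =>
    obtain ⟨k, i, hik, rfl⟩ := hx
    rw [coeff_monomial, if_neg (by omega)]
  | zero => simp
  | add x y _ _ hx hy => rw [coeff_add, hx, hy, add_zero]
  | smul c x _ hx => rw [coeff_smul, hx, smul_zero]

theorem gen_coeff_two {P : Om[X]} (h : P ∈ A0) (e : ℕ) :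
    ∃ γ γ' : Om, (monomial e γ : Om[X]) ∈ A0 ∧ (monomial e γ' : Om[X]) ∈ A0 ∧
      P.coeff (e + 2) = γ + tau * γ' := by
  have h1 := gen_span h
  clear h
  induction h1 using Submodule.span_induction with
  | mem x hx =>
    obtain ⟨k, i, hik, rfl⟩ := hx
    by_cases h2 : 2 * k = e + 2
    · obtain ⟨l, rfl⟩ : ∃ l, k = l + 1 := ⟨k - 1, by omega⟩
      have he : e = 2 * l := by omega
      subst he
      by_cases h3 : i ≤ l
      · exact ⟨tau ^ i, 0, genMon_mem ⟨l, i, h3, rfl⟩, by rw [map_zero]; exact A0.zero_mem, by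
          rw [coeff_monomial, if_pos h2, mul_zero, add_zero]⟩
      · have h4 : i = l + 1 := by omega
        subst h4
        exact ⟨0, tau ^ l, by rw [map_zero]; exact A0.zero_mem, genMon_mem ⟨l, l, le_rfl, rfl⟩, by
          rw [coeff_monomial, if_pos h2, zero_add, pow_succ, mul_comm]⟩
    · exact ⟨0, 0, by rw [map_zero]; exact A0.zero_mem, by rw [map_zero]; exact A0.zero_mem, by
        rw [coeff_monomial, if_neg h2, mul_zero, add_zero]⟩
  | zero => exact ⟨0, 0, by rw [map_zero]; exact A0.zero_mem, by rw [map_zero]; exact A0.zero_mem, by simp⟩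
  | add x y _ _ hx hy =>
    obtain ⟨a, b, ha, hb, h3⟩ := hx
    obtain ⟨c, d, hc, hd, h4⟩ := hy
    exact ⟨a + c, b + d, by rw [map_add]; exact A0.add_mem ha hc, by
      rw [map_add]; exact A0.add_mem hb hd, by rw [coeff_add, h3, h4]; ring⟩
  | smul c x _ hx =>
    obtain ⟨a, b, ha, hb, h3⟩ := hx
    refine ⟨c • a, c • b, ?_, ?_, ?_⟩
    · rw [← smul_monomial]; exact A0.smul_mem ha _
    · rw [← smul_monomial]; exact A0.smul_mem hb _
    · rw [coeff_smul, h3, smul_add, mul_smul_comm]

theorem st_FT (hF : ST_FIN) : ST_FT := by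
  intro ν D T
  obtain ⟨K, b, hb, hz⟩ := hF ν D T
  rw [← Subalgebra.fg_iff_finiteType]
  classical
  refine ⟨{X ^ 2, C tau * X ^ 2} ∪ Finset.univ.image b, ?_⟩
  rw [Finset.coe_union, Finset.coe_pair]
  apply le_antisymm
  · rw [Algebra.adjoin_le_iff]
    rintro x (hx | hx)
    · exact T.A0_le_B (Algebra.subset_adjoin hx)
    · rw [Finset.mem_coe, Finset.mem_image] at hx
      obtain ⟨k, _, rfl⟩ := hx
      exact hb k
  · intro z hzB
    obtain ⟨a, ha, rfl⟩ := hz z hzB
    refine Subalgebra.sum_mem _ fun k _ => Subalgebra.mul_mem _ ?_ ?_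
    · exact Algebra.adjoin_mono Set.subset_union_left (ha k)
    · exact Algebra.subset_adjoin (Or.inr (by
        rw [Finset.mem_coe, Finset.mem_image]; exact ⟨k, Finset.mem_univ _, rfl⟩))

theorem st_FD (hF : ST_FIN) : ST_FD := by
  intro ν D T n
  obtain ⟨K, b, hb, hz⟩ := hF ν D T
  let U : Submodule ℂ Om := Submodule.span ℂ (Set.range fun p : Fin K × Fin (n + 1) × Fin (n + 1) =>
    tau ^ (p.2.1 : ℕ) * (b p.1).coeff (p.2.2 : ℕ))
  have hU : FiniteDimensional ℂ U := FiniteDimensional.span_of_finite ℂ (Set.finite_range _)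
  have hmem : ∀ z ∈ T.B, z.coeff n ∈ U := by
    intro z hzB
    obtain ⟨a, ha, rfl⟩ := hz z hzB
    rw [finsetSum_coeff]
    refine Submodule.sum_mem _ fun k _ => ?_
    rw [coeff_mul]
    refine Submodule.sum_mem _ fun p hp => ?_
    rw [Finset.HasAntidiagonal.mem_antidiagonal] at hp
    have h1 := gen_coeff_span (ha k) p.1 n (by omega)
    have h2 : ∀ c ∈ Submodule.span ℂ (Set.range fun i : Fin (n + 1) => tau ^ (i : ℕ)),
        c * (b k).coeff p.2 ∈ U := by
      intro c hc
      induction hc using Submodule.span_induction with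
      | mem x hx =>
        obtain ⟨i, rfl⟩ := hx
        exact Submodule.subset_span ⟨(k, i, ⟨p.2, by omega⟩), rfl⟩
      | zero => rw [zero_mul]; exact Submodule.zero_mem _
      | add x y _ _ hx hy => rw [add_mul]; exact Submodule.add_mem _ hx hy
      | smul c x _ hx => rw [smul_mul_assoc]; exact Submodule.smul_mem _ _ hx
    exact h2 _ h1
  let f : T.grB n →ₗ[ℂ] U :=
    { toFun := fun z => ⟨((z : T.B) : Om[X]).coeff n, hmem _ (z : T.B).2⟩
      map_add' := by
        intro x y
        apply Subtype.ext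
        simp
      map_smul' := by
        intro c x
        apply Subtype.ext
        simp }
  refine Module.Finite.of_injective f ?_
  intro x y hxy
  obtain ⟨z, hz⟩ := x.2
  obtain ⟨z', hz'⟩ := y.2
  have h3 : ((x : T.B) : Om[X]).coeff n = ((y : T.B) : Om[X]).coeff n := congrArg Subtype.val hxy
  apply Subtype.ext
  apply Subtype.ext
  rw [hz, hz', coeff_monomial, if_pos rfl, coeff_monomial, if_pos rfl] at h3
  rw [hz, hz', h3]

theorem gen_sq {ν : ℕ} {D : Pell ν} (T : Tower D) (i : Fin 12) :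
    T.xx i ^ 2 = C tau * X ^ 2 - C (algebraMap ℂ Om (D.lam i)) * X ^ 2 := by
  rw [Tower.xx, ← C_mul_X_pow_eq_monomial, pow_one, mul_pow, ← C_pow, T.hr i, C_sub]
  ring

theorem st_GEN (hk : ST_KILL) (hF : ST_FIN) : ST_GEN := by
  intro ν D T
  obtain ⟨K, b, hb, hz⟩ := hF ν D T
  refine ⟨Finset.univ.sup fun k => (b k).natDegree, fun m hm z hzg => ?_⟩
  obtain ⟨ζ, hζ⟩ := hzg
  -- the two parts
  have key : ∃ u v : Om, (monomial (m - 1) u : Om[X]) ∈ T.B ∧ (monomial (m - 1) v : Om[X]) ∈ T.B ∧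
      ζ = u + tau * v ∧ (m = 0 → u = 0 ∧ v = 0) := by
    have hsum : ∀ z ∈ T.B, ∃ u v : Om, (monomial (m - 1) u : Om[X]) ∈ T.B ∧
        (monomial (m - 1) v : Om[X]) ∈ T.B ∧ z.coeff (m + 1) = u + tau * v ∧
        (m = 0 → u = 0 ∧ v = 0) := by
      intro z hzB
      obtain ⟨a, ha, rfl⟩ := hz z hzB
      rw [finsetSum_coeff]
      have hterm : ∀ k, ∀ p ∈ Finset.HasAntidiagonal.antidiagonal (m + 1), ∃ u v : Om,
          (monomial (m - 1) u : Om[X]) ∈ T.B ∧ (monomial (m - 1) v : Om[X]) ∈ T.B ∧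
          (a k).coeff p.1 * (b k).coeff p.2 = u + tau * v ∧ (m = 0 → u = 0 ∧ v = 0) := by
        intro k p hp
        rw [Finset.HasAntidiagonal.mem_antidiagonal] at hp
        have h0 : (a k).coeff p.1 * (b k).coeff p.2 = 0 → ∃ u v : Om,
            (monomial (m - 1) u : Om[X]) ∈ T.B ∧ (monomial (m - 1) v : Om[X]) ∈ T.B ∧
            (a k).coeff p.1 * (b k).coeff p.2 = u + tau * v ∧ (m = 0 → u = 0 ∧ v = 0) := by
          intro h
          exact ⟨0, 0, by rw [map_zero]; exact T.B.zero_mem, by rw [map_zero]; exact T.B.zero_mem,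
            by rw [h, mul_zero, add_zero], fun _ => ⟨rfl, rfl⟩⟩
        by_cases hdeg : (b k).natDegree < p.2
        · apply h0
          rw [coeff_eq_zero_of_natDegree_lt hdeg, mul_zero]
        · have hle : (b k).natDegree ≤ Finset.univ.sup fun k => (b k).natDegree :=
            Finset.le_sup (f := fun k => (b k).natDegree) (Finset.mem_univ k)
          have hp2 : p.2 ≤ m := by omega
          rcases Nat.lt_or_ge p.1 2 with h1 | h1
          · have h2 : p.1 = 1 := by omega
            apply h0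
            rw [h2, gen_coeff_one (ha k), zero_mul]
          · obtain ⟨e, he⟩ : ∃ e, p.1 = e + 2 := ⟨p.1 - 2, by omega⟩
            obtain ⟨γ, γ', hγ, hγ', hc⟩ := gen_coeff_two (ha k) e
            have hbc := T.comp_mem_of_kill hk (hb k) p.2
            have hm1 : e + p.2 = m - 1 := by omega
            refine ⟨γ * (b k).coeff p.2, γ' * (b k).coeff p.2, ?_, ?_, ?_, ?_⟩
            · rw [← hm1, ← monomial_mul_monomial]
              exact T.B.mul_mem (T.A0_le_B hγ) hbc
            · rw [← hm1, ← monomial_mul_monomial]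
              exact T.B.mul_mem (T.A0_le_B hγ') hbc
            · rw [he, hc]; ring
            · intro hm0
              omega
      have hadd : ∀ (ι : Type) (s : Finset ι) (f : ι → Om), (∀ i ∈ s, ∃ u v : Om,
          (monomial (m - 1) u : Om[X]) ∈ T.B ∧ (monomial (m - 1) v : Om[X]) ∈ T.B ∧
          f i = u + tau * v ∧ (m = 0 → u = 0 ∧ v = 0)) → ∃ u v : Om,
          (monomial (m - 1) u : Om[X]) ∈ T.B ∧ (monomial (m - 1) v : Om[X]) ∈ T.B ∧
          ∑ i ∈ s, f i = u + tau * v ∧ (m = 0 → u = 0 ∧ v = 0) := by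
        intro ι s f
        classical
        induction s using Finset.induction_on with
        | empty =>
          intro _
          exact ⟨0, 0, by rw [map_zero]; exact T.B.zero_mem, by rw [map_zero]; exact T.B.zero_mem,
            by simp, fun _ => ⟨rfl, rfl⟩⟩
        | insert i s hi ih =>
          intro h
          obtain ⟨u, v, hu, hv, h1, h2⟩ := ih fun j hj => h j (Finset.mem_insert_of_mem hj)
          obtain ⟨u', v', hu', hv', h1', h2'⟩ := h i (Finset.mem_insert_self _ _)
          refine ⟨u' + u, v' + v, by rw [map_add]; exact T.B.add_mem hu' hu, by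
            rw [map_add]; exact T.B.add_mem hv' hv, ?_, fun h0 => ?_⟩
          · rw [Finset.sum_insert hi, h1, h1']; ring
          · rw [(h2 h0).1, (h2 h0).2, (h2' h0).1, (h2' h0).2]
            simp
      refine hadd _ _ _ fun k _ => ?_
      rw [coeff_mul]
      exact hadd _ _ _ (hterm k)
    have h := hsum (z : Om[X]) z.2
    rwa [hζ, coeff_monomial, if_pos rfl] at h
  obtain ⟨u, v, hu, hv, hζuv, h0⟩ := key
  have hne : D.lam 1 - D.lam 0 ≠ 0 := by
    rw [sub_ne_zero]
    intro h
    have := D.inj h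
    exact absurd this (by decide)
  set c : ℂ := (D.lam 1 - D.lam 0)⁻¹ with hc
  -- u' = c • (u + lam 0 • v)
  let u' : Om := c • (u + D.lam 0 • v)
  have hu' : (monomial (m - 1) u' : Om[X]) ∈ T.B := by
    have : (monomial (m - 1) u' : Om[X]) = c • (monomial (m - 1) u + D.lam 0 • monomial (m - 1) v) := by
      rw [smul_monomial, ← map_add, smul_monomial]
    rw [this]
    exact T.B.smul_mem (T.B.add_mem hu (T.B.smul_mem hv _)) _
  let U : T.B := ⟨monomial (m - 1) u', hu'⟩
  let V : T.B := ⟨monomial (m - 1) v, hv⟩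
  have hx : ∀ (i : Fin 12) (P : T.B) (p : Om), (P : Om[X]) = monomial (m - 1) p → (m = 0 → p = 0) →
      T.x i * P ∈ T.grB m := by
    intro i P p hP hp
    show ∃ z : Om, ((T.x i * P : T.B) : Om[X]) = monomial m z
    rw [Subalgebra.coe_mul, hP]
    show ∃ z : Om, T.xx i * monomial (m - 1) p = monomial m z
    rcases Nat.eq_zero_or_pos m with hm0 | hm0
    · rw [hp hm0]
      exact ⟨0, by simp⟩
    · refine ⟨T.r i * p, ?_⟩
      rw [Tower.xx, monomial_mul_monomial, show 1 + (m - 1) = m by omega]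
  have hu0 : m = 0 → u' = 0 := by
    intro h
    show c • (u + D.lam 0 • v) = 0
    rw [(h0 h).1, (h0 h).2]
    simp
  refine ⟨T.x 0 * (U + V), hx 0 (U + V) (u' + v) ?_ ?_, T.x 1 * (-U), hx 1 (-U) (-u') ?_ ?_, ?_⟩
  · show monomial (m - 1) u' + monomial (m - 1) v = _
    rw [← map_add]
  · intro h
    rw [hu0 h, (h0 h).2, add_zero]
  · show -monomial (m - 1) u' = _
    rw [← map_neg]
  · intro h
    rw [hu0 h, neg_zero]
  · apply Subtype.ext
    show (z : Om[X]) = T.xx 0 * (T.xx 0 * (monomial (m - 1) u' + monomial (m - 1) v)) +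
      T.xx 1 * (T.xx 1 * (-monomial (m - 1) u'))
    have e : T.xx 0 * (T.xx 0 * (monomial (m - 1) u' + monomial (m - 1) v)) +
      T.xx 1 * (T.xx 1 * (-monomial (m - 1) u')) =
        (T.xx 0 ^ 2 - T.xx 1 ^ 2) * monomial (m - 1) u' + T.xx 0 ^ 2 * monomial (m - 1) v := by ring
    rw [e, gen_sq, gen_sq, hζ, hζuv]
    rcases Nat.eq_zero_or_pos m with hm0 | hm0
    · rw [hu0 hm0, (h0 hm0).1, (h0 hm0).2]
      simp
    · obtain ⟨n, rfl⟩ : ∃ n, m = n + 1 := ⟨m - 1, by omega⟩
      have hn : n + 1 - 1 = n := rfl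
      rw [hn]
      have h1 : (C tau * X ^ 2 - C (algebraMap ℂ Om (D.lam 0)) * X ^ 2 -
          (C tau * X ^ 2 - C (algebraMap ℂ Om (D.lam 1)) * X ^ 2) : Om[X]) * monomial n u' =
          monomial (n + 2) ((algebraMap ℂ Om (D.lam 1) - algebraMap ℂ Om (D.lam 0)) * u') := by
        rw [← C_mul_X_pow_eq_monomial, ← C_mul_X_pow_eq_monomial, C_mul, C_sub]
        ring
      have h2 : (C tau * X ^ 2 - C (algebraMap ℂ Om (D.lam 0)) * X ^ 2 : Om[X]) * monomial n v =
          monomial (n + 2) ((tau - algebraMap ℂ Om (D.lam 0)) * v) := by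
        rw [← C_mul_X_pow_eq_monomial, ← C_mul_X_pow_eq_monomial, C_mul, C_sub]
        ring
      rw [h1, h2, ← map_add]
      congr 1
      show u + tau * v = (algebraMap ℂ Om (D.lam 1) - algebraMap ℂ Om (D.lam 0)) *
        (c • (u + D.lam 0 • v)) + (tau - algebraMap ℂ Om (D.lam 0)) * v
      rw [Algebra.smul_def, Algebra.smul_def, ← map_sub, ← mul_assoc, ← map_mul, hc,
        mul_inv_cancel₀ hne, map_one]
      ring

end Pool.Agent.Helper67.RG
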